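import Mathlib

/-!
# Digit-restricted multipliers: basic facts on the characters

(The basic facts of this file are taken from the file `NearPower` of helper94.)
-/

set_option autoImplicit false

namespace Pool.H2.FC

open Finset Filter

/-- `G x = |cos (π x)|`. -/
noncomputable def G (x : ℝ) : ℝ := |Real.cos (x * Real.pi)|

theorem G_nonneg (x : ℝ) : 0 ≤ G x := abs_nonneg _

theorem G_le_one (x : ℝ) : G x ≤ 1 := Real.abs_cos_le_one _

theorem G_add_int (x : ℝ) (k : ℤ) : G (x + k) = G x := by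
  unfold G
  rw [add_mul, Real.cos_add_int_mul_pi, abs_mul]
  have : |((-1 : ℝ)) ^ k| = 1 := by
    rw [abs_zpow, abs_neg, abs_one, one_zpow]
  rw [this, one_mul]

theorem G_zero : G 0 = 1 := by simp [G]

theorem G_le_of_ge {b : ℕ} (hb : 2 ≤ b) (x : ℝ) (h1 : 1 / (2 * (b : ℝ)) ≤ |x|) (h2 : |x| ≤ 1 / 2) :
    G x ≤ Real.cos (Real.pi / (2 * b)) := by
  have hb' : (0 : ℝ) < b := by positivity
  unfold G
  rw [← Real.cos_abs, abs_mul, abs_of_pos Real.pi_pos]
  have hpi := Real.pi_pos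
  have hnn : 0 ≤ Real.cos (|x| * Real.pi) := by
    apply Real.cos_nonneg_of_neg_pi_div_two_le_of_le
    · have : 0 ≤ |x| * Real.pi := by positivity
      linarith
    · nlinarith
  rw [abs_of_nonneg hnn]
  apply Real.cos_le_cos_of_nonneg_of_le_pi
  · positivity
  · nlinarith [abs_nonneg x]
  · rw [div_le_iff₀ (by positivity)]
    have h3 : 1 ≤ |x| * (2 * b) := by
      rw [div_le_iff₀ (by positivity)] at h1
      exact h1
    nlinarith

noncomputable def ee (x : ℝ) : ℂ := Complex.exp ((2 * Real.pi * x : ℝ) * Complex.I)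

theorem ee_zero : ee 0 = 1 := by simp [ee]

theorem ee_add (x y : ℝ) : ee (x + y) = ee x * ee y := by
  unfold ee
  rw [← Complex.exp_add]
  congr 1
  push_cast; ring

theorem ee_sum {ι : Type*} (s : Finset ι) (f : ι → ℝ) : ee (∑ i ∈ s, f i) = ∏ i ∈ s, ee (f i) := by
  classical
  induction s using Finset.induction_on with
  | empty => simp [ee_zero]
  | insert a s ha ih => rw [sum_insert ha, prod_insert ha, ee_add, ih]

theorem norm_ee (x : ℝ) : ‖ee x‖ = 1 := Complex.norm_exp_ofReal_mul_I _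

theorem ee_int (k : ℤ) : ee k = 1 := by
  unfold ee
  rw [Complex.exp_eq_one_iff]
  refine ⟨k, ?_⟩
  push_cast; ring

theorem norm_one_add_ee (x : ℝ) : ‖1 + ee x‖ = 2 * G x := by
  have h : 1 + ee x = (2 * Real.cos (x * Real.pi) : ℝ) *
      Complex.exp ((Real.pi * x : ℝ) * Complex.I) := by
    unfold ee
    push_cast
    rw [Complex.cos]
    have h1 : Complex.exp (2 * (Real.pi : ℂ) * x * Complex.I)
        = Complex.exp ((x : ℂ) * Real.pi * Complex.I) * Complex.exp ((Real.pi : ℂ) * x * Complex.I) := by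
      rw [← Complex.exp_add]; congr 1; ring
    have h2 : (1 : ℂ) = Complex.exp (-((x : ℂ) * Real.pi) * Complex.I) *
        Complex.exp ((Real.pi : ℂ) * x * Complex.I) := by
      rw [← Complex.exp_add]
      have : -((x : ℂ) * Real.pi) * Complex.I + (Real.pi : ℂ) * x * Complex.I = 0 := by ring
      rw [this, Complex.exp_zero]
    rw [h1]
    nth_rewrite 1 [h2]
    ring
  rw [h, norm_mul, Complex.norm_exp_ofReal_mul_I, mul_one, Complex.norm_real, Real.norm_eq_abs,
    abs_mul, abs_of_pos (by norm_num : (0 : ℝ) < 2)]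
  rfl

theorem norm_prod_one_add (b D : ℕ) (x : ℝ) :
    ‖∏ j ∈ range D, (1 + ee ((b : ℝ) ^ j * x))‖ = 2 ^ D * ∏ j ∈ range D, G ((b : ℝ) ^ j * x) := by
  rw [norm_prod]
  have : ∀ j ∈ range D, ‖1 + ee ((b : ℝ) ^ j * x)‖ = 2 * G ((b : ℝ) ^ j * x) :=
    fun j _ => norm_one_add_ee _
  rw [prod_congr rfl this, prod_mul_distrib, prod_const, card_range]

theorem prod_one_add_ee (b D : ℕ) (x : ℝ) :
    ∏ j ∈ range D, (1 + ee ((b : ℝ) ^ j * x))
      = ∑ F ∈ (range D).powerset, ee ((∑ j ∈ F, (b : ℝ) ^ j) * x) := by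
  rw [prod_one_add]
  apply sum_congr rfl
  intro F _
  rw [← ee_sum, sum_mul]

theorem ee_eq_one {x : ℝ} (h : ee x = 1) : ∃ k : ℤ, x = k := by
  unfold ee at h
  rw [Complex.exp_eq_one_iff] at h
  obtain ⟨k, hk⟩ := h
  refine ⟨k, ?_⟩
  have h2 : ((2 * Real.pi * x : ℝ) : ℂ) = ((k * (2 * Real.pi) : ℝ) : ℂ) := by
    have hI : Complex.I ≠ 0 := Complex.I_ne_zero
    apply mul_right_cancel₀ hI
    rw [hk]
    push_cast; ring
  have h3 : 2 * Real.pi * x = k * (2 * Real.pi) := by exact_mod_cast h2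
  have hpi := Real.pi_pos
  have : (2 * Real.pi) * (x - k) = 0 := by linarith
  rcases mul_eq_zero.1 this with h | h
  · linarith
  · linarith

theorem ee_pow (x : ℝ) (t : ℕ) : ee x ^ t = ee (t * x) := by
  induction t with
  | zero => simp [ee_zero]
  | succ t ih => rw [pow_succ, ih, ← ee_add]; congr 1; push_cast; ring

theorem geom_zero {q n : ℕ} (hq : 0 < q) (hn : ¬ q ∣ n) :
    ∑ t ∈ range q, ee ((n : ℝ) * ((t : ℝ) / q)) = 0 := by
  have hq' : (0 : ℝ) < q := by exact_mod_cast hq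
  have h1 : ∀ t ∈ range q, ee ((n : ℝ) * ((t : ℝ) / q)) = (ee ((n : ℝ) / q)) ^ t := by
    intro t _
    rw [ee_pow]; congr 1; field_simp
  rw [sum_congr rfl h1]
  have hz : ee ((n : ℝ) / q) ≠ 1 := by
    intro h
    obtain ⟨k, hk⟩ := ee_eq_one h
    have h2 : (n : ℝ) = k * q := by
      rw [div_eq_iff hq'.ne'] at hk; exact hk
    have h3 : (n : ℤ) = k * q := by exact_mod_cast h2
    apply hn
    have : (q : ℤ) ∣ (n : ℤ) := ⟨k, by rw [h3]; ring⟩
    exact_mod_cast this
  have hzq : (ee ((n : ℝ) / q)) ^ q = 1 := by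
    rw [ee_pow]
    have : (q : ℝ) * ((n : ℝ) / q) = ((n : ℤ) : ℝ) := by push_cast; field_simp
    rw [this, ee_int]
  have := mul_geom_sum (ee ((n : ℝ) / q)) q
  rw [hzq, sub_self] at this
  rcases mul_eq_zero.1 this with h | h
  · exact absurd (sub_eq_zero.1 h) hz
  · exact h

theorem conj_ee (x : ℝ) : (starRingEnd ℂ) (ee x) = ee (-x) := by
  unfold ee
  rw [← Complex.exp_conj]
  congr 1
  rw [map_mul, Complex.conj_ofReal, Complex.conj_I]
  push_cast; ring

theorem ee_add_int (x : ℝ) (k : ℤ) : ee (x + k) = ee x := by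
  rw [ee_add, ee_int, mul_one]

theorem norm_ee_sub_one (x : ℝ) : ‖ee x - 1‖ = 2 * |Real.sin (Real.pi * x)| := by
  have h : ee x - 1 = (2 * Real.sin (Real.pi * x) : ℝ) * Complex.I *
      Complex.exp ((Real.pi * x : ℝ) * Complex.I) := by
    unfold ee
    push_cast
    rw [Complex.sin]
    have h1 : Complex.exp (2 * (Real.pi : ℂ) * x * Complex.I)
        = Complex.exp ((Real.pi : ℂ) * x * Complex.I) * Complex.exp ((Real.pi : ℂ) * x * Complex.I) := by
      rw [← Complex.exp_add]; congr 1; ring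
    have h2 : (1 : ℂ) = Complex.exp (-((Real.pi : ℂ) * x) * Complex.I) *
        Complex.exp ((Real.pi : ℂ) * x * Complex.I) := by
      rw [← Complex.exp_add]
      have : -((Real.pi : ℂ) * x) * Complex.I + (Real.pi : ℂ) * x * Complex.I = 0 := by ring
      rw [this, Complex.exp_zero]
    rw [h1]
    have hI : Complex.I * Complex.I = -1 := Complex.I_mul_I
    linear_combination (-(Complex.exp (-((Real.pi : ℂ) * x) * Complex.I) -
      Complex.exp ((Real.pi : ℂ) * x * Complex.I)) * Complex.exp ((Real.pi : ℂ) * x * Complex.I)) * hI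
      - h2
  rw [h, norm_mul, norm_mul, Complex.norm_exp_ofReal_mul_I, mul_one, Complex.norm_real,
    Complex.norm_I, mul_one, Real.norm_eq_abs, abs_mul, abs_of_pos (by norm_num : (0 : ℝ) < 2)]

theorem norm_ee_sub_one_ge {x δ : ℝ} (h : ∀ k : ℤ, δ ≤ |x - k|) :
    4 * δ ≤ ‖ee x - 1‖ := by
  have e : ee x = ee (x - round x) := by
    have := ee_add_int (x - round x) (round x)
    rw [sub_add_cancel] at this
    exact this
  rw [e, norm_ee_sub_one]
  have h1 := h (round x)
  have h2 := abs_sub_round x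
  set y := x - round x with hy
  have h3 : |Real.sin (Real.pi * y)| = Real.sin (Real.pi * |y|) := by
    rcases le_total 0 y with h0 | h0
    · rw [abs_of_nonneg h0, abs_of_nonneg]
      apply Real.sin_nonneg_of_nonneg_of_le_pi
      · have := Real.pi_pos; positivity
      · rw [abs_of_nonneg h0] at h2
        nlinarith [Real.pi_pos]
    · rw [abs_of_nonpos h0]
      have : Real.pi * -y = -(Real.pi * y) := by ring
      rw [this, Real.sin_neg, abs_of_nonpos]
      rw [← neg_nonneg, ← Real.sin_neg, ← this]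
      apply Real.sin_nonneg_of_nonneg_of_le_pi
      · have := Real.pi_pos; have : 0 ≤ -y := by linarith
        positivity
      · rw [abs_of_nonpos h0] at h2
        nlinarith [Real.pi_pos]
  rw [h3]
  have h4 := Real.mul_le_sin (x := Real.pi * |y|) (by have := Real.pi_pos; positivity) (by
    nlinarith [Real.pi_pos])
  have h5 : 2 / Real.pi * (Real.pi * |y|) = 2 * |y| := by
    have := Real.pi_pos.ne'
    field_simp
  rw [h5] at h4
  linarith

theorem norm_geom_le {x δ : ℝ} (hδ : 0 < δ) (h : ∀ k : ℤ, δ ≤ |x - k|) (S : ℕ) :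
    ‖∑ s ∈ range S, ee (s * x)‖ ≤ 1 / (2 * δ) := by
  have h1 : ∀ s ∈ range S, ee ((s : ℝ) * x) = (ee x) ^ s := by
    intro s _
    rw [ee_pow]
  rw [sum_congr rfl h1]
  have h2 := mul_geom_sum (ee x) S
  have h3 := norm_ee_sub_one_ge h
  have h4 : ‖ee x ^ S - 1‖ ≤ 2 := by
    calc ‖ee x ^ S - 1‖ ≤ ‖ee x ^ S‖ + ‖(1 : ℂ)‖ := norm_sub_le _ _
      _ = 2 := by rw [norm_pow, norm_ee]; norm_num
  have h5 : ‖ee x - 1‖ * ‖∑ i ∈ range S, ee x ^ i‖ ≤ 2 := by
    rw [← norm_mul, h2]; exact h4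
  rw [le_div_iff₀ (by positivity)]
  nlinarith [norm_nonneg (∑ i ∈ range S, ee x ^ i)]

end Pool.H2.FC
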