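import Pool.Agent.H2.FC.Base

/-!
# Digit-restricted multipliers: coding of the sparse numbers
-/

set_option autoImplicit false

namespace Pool.H2.FC

open Finset Filter

/-- The positions `j < D` for which `b ^ j * x` is far from the integers. -/
noncomputable def Ev (b D : ℕ) (x : ℝ) : Finset ℕ :=
  (range D).filter (fun j => 1 / (2 * (b : ℝ)) ≤ |(b : ℝ) ^ j * x - round ((b : ℝ) ^ j * x)|)

theorem prod_le_events {b : ℕ} (hb : 2 ≤ b) (D : ℕ) (x : ℝ) :
    ∏ j ∈ range D, G ((b : ℝ) ^ j * x) ≤ Real.cos (Real.pi / (2 * b)) ^ (Ev b D x).card := by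
  have hb' : (0 : ℝ) < b := by positivity
  rw [← prod_filter_mul_prod_filter_not (range D)
    (fun j => 1 / (2 * (b : ℝ)) ≤ |(b : ℝ) ^ j * x - round ((b : ℝ) ^ j * x)|)]
  have h1 : ∏ j ∈ Ev b D x, G ((b : ℝ) ^ j * x) ≤ Real.cos (Real.pi / (2 * b)) ^ (Ev b D x).card := by
    rw [← prod_const]
    apply Finset.prod_le_prod
    · intro j _; exact G_nonneg _
    · intro j hj
      have h2 := (mem_filter.1 hj).2
      have h3 := G_le_of_ge hb _ h2 (abs_sub_round _)
      have h4 : G ((b : ℝ) ^ j * x) = G ((b : ℝ) ^ j * x - round ((b : ℝ) ^ j * x)) := by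
        rw [← G_add_int ((b : ℝ) ^ j * x - round ((b : ℝ) ^ j * x)) (round ((b : ℝ) ^ j * x))]
        congr 1; ring
      rw [h4]; exact h3
  have h2 : ∏ j ∈ (range D).filter (fun j => ¬ (1 / (2 * (b : ℝ)) ≤
      |(b : ℝ) ^ j * x - round ((b : ℝ) ^ j * x)|)), G ((b : ℝ) ^ j * x) ≤ 1 :=
    prod_le_one (fun _ _ => G_nonneg _) (fun _ _ => G_le_one _)
  have h3 : 0 ≤ Real.cos (Real.pi / (2 * b)) := by
    apply Real.cos_nonneg_of_neg_pi_div_two_le_of_le
    · have : 0 ≤ Real.pi / (2 * b) := by have := Real.pi_pos; positivity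
      have := Real.pi_pos
      linarith
    · apply div_le_div_of_nonneg_left Real.pi_pos.le (by norm_num)
      have : (2 : ℝ) ≤ b := by exact_mod_cast hb
      linarith
  calc _ ≤ Real.cos (Real.pi / (2 * b)) ^ (Ev b D x).card * 1 := by
        apply mul_le_mul h1 h2 (prod_nonneg fun _ _ => G_nonneg _) (pow_nonneg h3 _)
    _ = _ := mul_one _

/-- The possible values of `round (b ^ D * x)`, if there are at most `h` events. -/
noncomputable def cod (b : ℕ) (m₀ : ℤ) : ℕ → ℕ → Finset ℤ
  | 0, _ => {m₀}
  | D + 1, 0 => (cod b m₀ D 0).image (fun m => b * m)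
  | D + 1, h + 1 => (cod b m₀ D (h + 1)).image (fun m => b * m) ∪
      ((cod b m₀ D h) ×ˢ Icc (-(((b + 1) / 2 : ℕ) : ℤ)) (((b + 1) / 2 : ℕ) : ℤ)).image
        (fun p => b * p.1 + p.2)

theorem cod_card (b : ℕ) (m₀ : ℤ) {y : ℝ} (hy : 0 < y) (hy1 : y ≤ 1) :
    ∀ D h : ℕ, ((cod b m₀ D h).card : ℝ) * y ^ h ≤ (1 + (b + 2) * y) ^ D := by
  have hb0 : (0 : ℝ) ≤ b := Nat.cast_nonneg _
  intro D
  induction D with
  | zero =>
    intro h
    rw [cod, card_singleton, pow_zero, Nat.cast_one, one_mul]
    exact pow_le_one₀ hy.le hy1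
  | succ D ih =>
    intro h
    have hpos : 0 ≤ (b + 2) * y := by positivity
    cases h with
    | zero =>
      have h1 := ih 0
      rw [pow_zero, mul_one] at h1 ⊢
      have h2 : ((cod b m₀ (D + 1) 0).card : ℝ) ≤ (cod b m₀ D 0).card := by
        rw [cod]; exact_mod_cast card_image_le
      refine h2.trans (h1.trans ?_)
      apply pow_le_pow_right₀ (by linarith) (Nat.le_succ D)
    | succ h =>
      have h1 := ih (h + 1)
      have h2 := ih h
      have h3 : ((cod b m₀ (D + 1) (h + 1)).card : ℝ) ≤
          (cod b m₀ D (h + 1)).card + (cod b m₀ D h).card * (b + 2) := by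
        have h4 : (cod b m₀ (D + 1) (h + 1)).card ≤
            (cod b m₀ D (h + 1)).card + (cod b m₀ D h).card * (b + 2) := by
          rw [cod]
          refine (card_union_le _ _).trans (add_le_add card_image_le ?_)
          refine card_image_le.trans ?_
          rw [card_product]
          apply Nat.mul_le_mul_left
          rw [Int.card_Icc]
          omega
        exact_mod_cast h4
      calc ((cod b m₀ (D + 1) (h + 1)).card : ℝ) * y ^ (h + 1)
          ≤ ((cod b m₀ D (h + 1)).card + (cod b m₀ D h).card * (b + 2)) * y ^ (h + 1) := by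
            apply mul_le_mul_of_nonneg_right h3 (by positivity)
        _ = (cod b m₀ D (h + 1)).card * y ^ (h + 1) +
            ((cod b m₀ D h).card * y ^ h) * ((b + 2) * y) := by ring
        _ ≤ (1 + (b + 2) * y) ^ D + (1 + (b + 2) * y) ^ D * ((b + 2) * y) :=
            add_le_add h1 (mul_le_mul_of_nonneg_right h2 hpos)
        _ = (1 + (b + 2) * y) ^ (D + 1) := by ring

theorem cod_mono (b : ℕ) (m₀ : ℤ) : ∀ D h h' : ℕ, h ≤ h' → cod b m₀ D h ⊆ cod b m₀ D h' := by
  intro D
  induction D with
  | zero =>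
    intro h h' _
    rw [cod, cod]
  | succ D ih =>
    intro h h' hh
    cases h with
    | zero =>
      cases h' with
      | zero => exact fun _ h => h
      | succ h' =>
        rw [cod, cod]
        exact (image_subset_image (ih 0 (h' + 1) (Nat.zero_le _))).trans subset_union_left
    | succ h =>
      cases h' with
      | zero => omega
      | succ h' =>
        rw [cod, cod]
        apply union_subset_union
        · exact image_subset_image (ih _ _ hh)
        · exact image_subset_image (product_subset_product_left (ih _ _ (by omega)))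

theorem mem_cod {b : ℕ} (hb : 2 ≤ b) (x : ℝ) : ∀ D h : ℕ, (Ev b D x).card ≤ h →
    round ((b : ℝ) ^ D * x) ∈ cod b (round x) D h := by
  have hb' : (0 : ℝ) < b := by positivity
  intro D
  induction D with
  | zero =>
    intro h _
    rw [cod, pow_zero, one_mul]
    exact mem_singleton_self _
  | succ D ih =>
    intro h hh
    set m := round ((b : ℝ) ^ D * x) with hm
    set m' := round ((b : ℝ) ^ (D + 1) * x) with hm'
    have e1 : (b : ℝ) ^ (D + 1) * x = b * ((b : ℝ) ^ D * x) := by ring
    have h1 : |(b : ℝ) ^ (D + 1) * x - m'| ≤ 1 / 2 := abs_sub_round _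
    have h2 : |(b : ℝ) ^ D * x - m| ≤ 1 / 2 := abs_sub_round _
    have hEv : Ev b (D + 1) x = if 1 / (2 * (b : ℝ)) ≤ |(b : ℝ) ^ D * x - m| then
        insert D (Ev b D x) else Ev b D x := by
      unfold Ev
      rw [range_add_one, filter_insert]
    have hnot : D ∉ Ev b D x := by
      unfold Ev
      intro h
      simp at h
    by_cases hcase : 1 / (2 * (b : ℝ)) ≤ |(b : ℝ) ^ D * x - m|
    · rw [hEv, if_pos hcase, card_insert_of_notMem hnot] at hh
      obtain ⟨h', rfl⟩ : ∃ h', h = h' + 1 := ⟨h - 1, by omega⟩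
      rw [cod]
      apply mem_union_right
      rw [mem_image]
      refine ⟨(m, m' - b * m), ?_, by dsimp only; ring⟩
      rw [mem_product]
      refine ⟨ih h' (by omega), ?_⟩
      dsimp only
      have h3 : |((m' - b * m : ℤ) : ℝ)| ≤ (b + 1) / 2 := by
        push_cast
        have e2 : (m' : ℝ) - b * m = -((b : ℝ) ^ (D + 1) * x - m') + b * ((b : ℝ) ^ D * x - m) := by
          rw [e1]; ring
        rw [e2]
        refine (abs_add_le _ _).trans ?_
        rw [abs_neg, abs_mul, abs_of_pos hb']
        nlinarith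
      have h4 : |m' - b * m| ≤ (((b + 1) / 2 : ℕ) : ℤ) := by
        have h5 : 2 * |m' - b * m| ≤ ((b + 1 : ℕ) : ℤ) := by
          have : (2 : ℝ) * |((m' - b * m : ℤ) : ℝ)| ≤ b + 1 := by linarith
          exact_mod_cast this
        push_cast
        push_cast at h5
        omega
      rw [abs_le] at h4
      rw [mem_Icc]
      exact h4
    · rw [hEv, if_neg hcase] at hh
      have h3 : |(b : ℝ) ^ (D + 1) * x - ((b * m : ℤ) : ℝ)| < 1 / 2 := by
        push_cast
        rw [e1, ← mul_sub, abs_mul, abs_of_pos hb']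
        rw [not_le, lt_div_iff₀ (by positivity)] at hcase
        nlinarith
      have h4 : m' = b * m := by
        rw [hm']
        by_contra hne
        have h5 : |((m' - b * m : ℤ) : ℝ)| < 1 := by
          push_cast
          have e2 : (m' : ℝ) - b * m = -((b : ℝ) ^ (D + 1) * x - m') +
            ((b : ℝ) ^ (D + 1) * x - (b * m : ℤ)) := by push_cast; ring
          rw [e2]
          refine (abs_add_le _ _).trans_lt ?_
          rw [abs_neg]
          linarith
        have h6 : |m' - b * m| < 1 := by exact_mod_cast h5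
        rw [Int.abs_lt_one_iff] at h6
        apply hne
        rw [← hm']
        linarith
      have h5 := ih h hh
      cases h with
      | zero =>
        rw [cod, h4, mem_image]
        exact ⟨m, h5, rfl⟩
      | succ h =>
        rw [cod, h4]
        apply mem_union_left
        rw [mem_image]
        exact ⟨m, h5, rfl⟩

end Pool.H2.FC
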