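import Pool.Agent.H2.FC.Spec
import Pool.Agent.H2.FC.Code

/-!
# Digit-restricted multipliers: covering of the exceptional set at one scale
-/

set_option autoImplicit false

namespace Pool.H2.FC

open Finset Filter

theorem cos_bounds {b : ℕ} (hb : 2 ≤ b) :
    0 < Real.cos (Real.pi / (2 * b)) ∧ Real.cos (Real.pi / (2 * b)) < 1 := by
  have hb2 : (2 : ℝ) ≤ b := by exact_mod_cast hb
  have hpi := Real.pi_pos
  have h1 : 0 < Real.pi / (2 * b) := by positivity
  have h2 : Real.pi / (2 * b) < Real.pi / 2 := by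
    apply div_lt_div_of_pos_left hpi (by norm_num); linarith
  constructor
  · apply Real.cos_pos_of_mem_Ioo
    constructor <;> linarith
  · have := Real.cos_lt_cos_of_nonneg_of_le_pi (x := 0) (y := Real.pi / (2 * b)) le_rfl
      (by linarith) h1
    simpa using this

/-- The number of events is at most logarithmic. -/
theorem events_le {b : ℕ} (hb : 2 ≤ b) {D : ℕ} {x M : ℝ} (hM : 0 < M)
    (h : 1 / M ≤ ∏ j ∈ range D, G ((b : ℝ) ^ j * x)) :
    ((Ev b D x).card : ℝ) ≤ Real.log M / (-Real.log (Real.cos (Real.pi / (2 * b)))) := by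
  obtain ⟨h0, h1⟩ := cos_bounds hb
  set r := Real.cos (Real.pi / (2 * b)) with hr
  have hl : 0 < -Real.log r := by
    have := Real.log_neg h0 h1
    linarith
  rw [le_div_iff₀ hl]
  have h2 := h.trans (prod_le_events hb D x)
  rw [← hr] at h2
  have h3 := Real.log_le_log (by positivity) h2
  rw [Real.log_pow, one_div, Real.log_inv] at h3
  linarith

/-- The exceptional set at the scale `b ^ D`. -/
def Bad (b D : ℕ) (δ : ℝ) : Set ℝ :=
  {θ | ∀ F ⊆ range D, F.Nonempty → ∀ k : ℤ, δ < |(∑ j ∈ F, (b : ℝ) ^ j) * θ - k|}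

/-- A covering of the exceptional set. -/
theorem cover_raw {b : ℕ} (hb : 2 ≤ b) {S D : ℕ} {δ y : ℝ} (hS : 0 < S) (hδ : 0 < δ)
    (hSδ : 1 ≤ (S : ℝ) * δ ^ 2) (hbig : 4 * S ≤ 2 ^ D) (hy : 0 < y) (hy1 : y ≤ 1) :
    ∃ T : Finset ℝ, (T.card : ℝ) ≤ (S : ℝ) ^ 2 *
        (Real.exp (Real.log (1 / y) *
          (Real.log (2 * S) / (-Real.log (Real.cos (Real.pi / (2 * b)))))) *
          (1 + (b + 2) * y) ^ D) ∧
      ∀ θ : ℝ, 0 ≤ θ → θ ≤ 1 → θ ∈ Bad b D δ → ∃ t ∈ T, |θ - t| ≤ 1 / (b : ℝ) ^ D := by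
  classical
  have hb' : (0 : ℝ) < b := by positivity
  have hSr : (0 : ℝ) < S := by exact_mod_cast hS
  set H : ℝ := Real.log (2 * S) / (-Real.log (Real.cos (Real.pi / (2 * b)))) with hH
  set h : ℕ := ⌊H⌋₊ with hh
  have hH0 : 0 ≤ H := by
    obtain ⟨h0, h1⟩ := cos_bounds hb
    apply div_nonneg
    · apply Real.log_nonneg
      have : (1 : ℝ) ≤ S := by exact_mod_cast hS
      linarith
    · have := Real.log_neg h0 h1
      linarith
  set I : Finset (ℕ × ℕ) := range S ×ˢ range S with hI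
  refine ⟨I.biUnion (fun p => (cod b (p.2 : ℤ) D h).image
    (fun m : ℤ => (m : ℝ) / ((p.1 : ℝ) * (b : ℝ) ^ D))), ?_, ?_⟩
  · have h1 : ((I.biUnion (fun p => (cod b (p.2 : ℤ) D h).image
        (fun m : ℤ => (m : ℝ) / ((p.1 : ℝ) * (b : ℝ) ^ D)))).card : ℝ) ≤
        ∑ p ∈ I, ((cod b (p.2 : ℤ) D h).card : ℝ) := by
      have : (I.biUnion (fun p => (cod b (p.2 : ℤ) D h).image
        (fun m : ℤ => (m : ℝ) / ((p.1 : ℝ) * (b : ℝ) ^ D)))).card ≤
          ∑ p ∈ I, (cod b (p.2 : ℤ) D h).card :=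
        card_biUnion_le.trans (sum_le_sum fun p _ => card_image_le)
      exact_mod_cast this
    have h2 : ∀ m₀ : ℤ, ((cod b m₀ D h).card : ℝ) ≤
        Real.exp (Real.log (1 / y) * H) * (1 + (b + 2) * y) ^ D := by
      intro m₀
      have h3 := cod_card b m₀ hy hy1 D h
      have h4 : Real.exp (-(Real.log (1 / y) * H)) ≤ y ^ h := by
        have h5 : y ^ h = Real.exp (h * Real.log y) := by
          rw [mul_comm, Real.exp_mul, Real.exp_log hy, Real.rpow_natCast]
        rw [h5, Real.exp_le_exp, one_div, Real.log_inv]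
        have h6 : (h : ℝ) ≤ H := Nat.floor_le hH0
        have h7 : Real.log y ≤ 0 := Real.log_nonpos hy.le hy1
        nlinarith
      have h8 : ((cod b m₀ D h).card : ℝ) * Real.exp (-(Real.log (1 / y) * H)) ≤
          (1 + (b + 2) * y) ^ D := by
        refine le_trans ?_ h3
        exact mul_le_mul_of_nonneg_left h4 (Nat.cast_nonneg _)
      calc ((cod b m₀ D h).card : ℝ)
          = Real.exp (Real.log (1 / y) * H) *
            (((cod b m₀ D h).card : ℝ) * Real.exp (-(Real.log (1 / y) * H))) := by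
            rw [mul_left_comm, ← Real.exp_add, add_neg_cancel, Real.exp_zero, mul_one]
        _ ≤ _ := mul_le_mul_of_nonneg_left h8 (Real.exp_pos _).le
    refine h1.trans ((sum_le_sum fun p _ => h2 _).trans ?_)
    rw [sum_const, hI, card_product, card_range, nsmul_eq_mul]
    apply le_of_eq
    push_cast
    ring
  · intro θ h0 h1 hθ
    obtain ⟨s, hs0, hsS, hs⟩ := spec_real hS hδ hSδ hbig hθ
    have hs' : (0 : ℝ) < s := by exact_mod_cast hs0
    have hev := events_le hb (by positivity) hs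
    rw [← hH] at hev
    have hev2 : (Ev b D ((s : ℝ) * θ)).card ≤ h := Nat.le_floor hev
    have hmem := mem_cod hb _ D h hev2
    -- the initial value
    have hr0 : 0 ≤ round ((s : ℝ) * θ) := by
      have : (0 : ℝ) ≤ (s : ℝ) * θ := by positivity
      rw [round_eq]
      apply Int.floor_nonneg.2
      linarith
    have hr1 : round ((s : ℝ) * θ) < S := by
      have h5 : (s : ℝ) * θ ≤ s := by nlinarith
      rw [round_eq, Int.floor_lt]
      have h6 : (s : ℝ) + 1 ≤ S := by exact_mod_cast hsS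
      push_cast
      linarith
    obtain ⟨m₀, hm₀⟩ := Int.eq_ofNat_of_zero_le hr0
    refine ⟨(round ((b : ℝ) ^ D * ((s : ℝ) * θ)) : ℝ) / ((s : ℝ) * (b : ℝ) ^ D), ?_, ?_⟩
    · rw [mem_biUnion]
      refine ⟨(s, m₀), ?_, ?_⟩
      · rw [hI, mem_product, mem_range, mem_range]
        exact ⟨hsS, by dsimp only; omega⟩
      · rw [mem_image]
        refine ⟨_, ?_, rfl⟩
        dsimp only
        rw [hm₀] at hmem
        exact hmem
    · have h5 : θ - (round ((b : ℝ) ^ D * ((s : ℝ) * θ)) : ℝ) / ((s : ℝ) * (b : ℝ) ^ D) =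
          ((b : ℝ) ^ D * ((s : ℝ) * θ) - round ((b : ℝ) ^ D * ((s : ℝ) * θ))) /
            ((s : ℝ) * (b : ℝ) ^ D) := by
        field_simp
      rw [h5, abs_div, abs_of_pos (by positivity : (0 : ℝ) < (s : ℝ) * (b : ℝ) ^ D),
        div_le_div_iff₀ (by positivity) (by positivity)]
      have h6 := abs_sub_round ((b : ℝ) ^ D * ((s : ℝ) * θ))
      have h7 : (1 : ℝ) ≤ s := by exact_mod_cast hs0
      have h8 : (0 : ℝ) < (b : ℝ) ^ D := by positivity
      nlinarith [mul_le_mul_of_nonneg_right h6 h8.le, mul_le_mul_of_nonneg_right h7 h8.le]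

/-- The covering with an explicit exponent. -/
theorem cover {b : ℕ} (hb : 2 ≤ b) : ∃ c₀ C : ℝ, 0 < c₀ ∧ c₀ ≤ 1 / 4 ∧ 0 < C ∧
    ∀ c : ℝ, 0 < c → c ≤ c₀ → ∃ A : ℝ, 0 < A ∧ ∀ D : ℕ, ∃ T : Finset ℝ,
      (T.card : ℝ) ≤ A * Real.exp (C * c * Real.log (1 / c) * (D * Real.log b)) ∧
      ∀ θ : ℝ, 0 ≤ θ → θ ≤ 1 → θ ∈ Bad b D (Real.exp (-(c * ((D + 1) * Real.log b)))) →
        ∃ t ∈ T, |θ - t| ≤ 1 / (b : ℝ) ^ D := by
  classical
  obtain ⟨hr0, hr1⟩ := cos_bounds hb
  have hlam : 0 < -Real.log (Real.cos (Real.pi / (2 * b))) := by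
    have := Real.log_neg hr0 hr1
    linarith
  set lam : ℝ := -Real.log (Real.cos (Real.pi / (2 * b))) with hlamdef
  have hb2 : (2 : ℝ) ≤ b := by exact_mod_cast hb
  have hb0 : (0 : ℝ) < b := by linarith
  set l : ℝ := Real.log b with hl
  have hl2 : Real.log 2 ≤ l := Real.log_le_log (by norm_num) hb2
  have hlog2 : 0 < Real.log 2 := Real.log_pos (by norm_num)
  have hl0 : 0 < l := by linarith
  refine ⟨Real.log 2 / (8 * l), 4 + 2 / lam + (b + 2) / l, by positivity, ?_, by positivity, ?_⟩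
  · rw [div_le_div_iff₀ (by positivity) (by norm_num)]
    linarith
  intro c hc hc1
  have hc18 : c ≤ 1 / 8 := by
    refine hc1.trans ?_
    rw [div_le_div_iff₀ (by positivity) (by norm_num)]
    linarith
  have hcl : c * l ≤ Real.log 2 / 8 := by
    rw [le_div_iff₀ (by positivity)] at hc1
    linarith
  set L : ℝ := Real.log (1 / c) with hL
  have hL1 : 1 ≤ L := by
    rw [hL, Real.le_log_iff_exp_le (by positivity), le_div_iff₀ hc]
    have := Real.exp_one_lt_d9
    nlinarith
  set A₁ : ℝ := Real.exp (L * ((Real.log 4 + 2 * c * l) / lam)) with hA₁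
  set A : ℝ := 4 * Real.exp (4 * c * l) * A₁ + ((b : ℝ) ^ 5 + 1) with hA
  refine ⟨A, by positivity, ?_⟩
  intro D
  have hCpos : 0 ≤ (4 + 2 / lam + (b + 2) / l) * c * L * (D * l) := by positivity
  by_cases hD : D < 5
  · -- a grid
    refine ⟨(range (b ^ 5 + 1)).image (fun i : ℕ => (i : ℝ) / (b : ℝ) ^ 5), ?_, ?_⟩
    · have h1 : (((range (b ^ 5 + 1)).image (fun i : ℕ => (i : ℝ) / (b : ℝ) ^ 5)).card : ℝ) ≤
          (b : ℝ) ^ 5 + 1 := by
        have := card_image_le (s := range (b ^ 5 + 1)) (f := fun i : ℕ => (i : ℝ) / (b : ℝ) ^ 5)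
        rw [card_range] at this
        exact_mod_cast this
      have h2 : (1 : ℝ) ≤ Real.exp ((4 + 2 / lam + (b + 2) / l) * c * L * (D * l)) :=
        Real.one_le_exp hCpos
      have h3 : (b : ℝ) ^ 5 + 1 ≤ A := by
        rw [hA]
        have : 0 < 4 * Real.exp (4 * c * l) * A₁ := by positivity
        linarith
      have h4 : (0 : ℝ) ≤ A := by positivity
      nlinarith
    · intro θ h0 h1 _
      refine ⟨(⌊θ * (b : ℝ) ^ 5⌋₊ : ℝ) / (b : ℝ) ^ 5, ?_, ?_⟩
      · rw [mem_image]
        refine ⟨⌊θ * (b : ℝ) ^ 5⌋₊, ?_, rfl⟩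
        rw [mem_range]
        have h2 : ⌊θ * (b : ℝ) ^ 5⌋₊ ≤ b ^ 5 := by
          apply Nat.floor_le_of_le
          push_cast
          have : (0 : ℝ) < (b : ℝ) ^ 5 := by positivity
          nlinarith
        omega
      · have h2 : (0 : ℝ) < (b : ℝ) ^ 5 := by positivity
        have h3 := Nat.floor_le (show 0 ≤ θ * (b : ℝ) ^ 5 by positivity)
        have h4 := Nat.lt_floor_add_one (θ * (b : ℝ) ^ 5)
        have h5 : θ - (⌊θ * (b : ℝ) ^ 5⌋₊ : ℝ) / (b : ℝ) ^ 5 =
            (θ * (b : ℝ) ^ 5 - ⌊θ * (b : ℝ) ^ 5⌋₊) / (b : ℝ) ^ 5 := by field_simp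
        rw [h5, abs_div, abs_of_pos h2, abs_of_nonneg (by linarith)]
        calc _ ≤ 1 / (b : ℝ) ^ 5 := div_le_div_of_nonneg_right (by linarith) h2.le
          _ ≤ 1 / (b : ℝ) ^ D := by
            apply one_div_le_one_div_of_le (by positivity)
            exact pow_le_pow_right₀ (by linarith) (by omega)
  · push Not at hD
    set δ : ℝ := Real.exp (-(c * ((D + 1) * l))) with hδ
    set S : ℕ := ⌈Real.exp (2 * (c * ((D + 1) * l)))⌉₊ with hS
    have hE1 : 1 ≤ Real.exp (2 * (c * ((D + 1) * l))) := Real.one_le_exp (by positivity)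
    have hSlow : Real.exp (2 * (c * ((D + 1) * l))) ≤ S := Nat.le_ceil _
    have hSup : (S : ℝ) ≤ 2 * Real.exp (2 * (c * ((D + 1) * l))) := by
      have := Nat.ceil_lt_add_one (show 0 ≤ Real.exp (2 * (c * ((D + 1) * l))) by positivity)
      rw [← hS] at this
      linarith
    have hS0 : 0 < S := by
      have : (0 : ℝ) < S := by linarith
      exact_mod_cast this
    have hSδ : 1 ≤ (S : ℝ) * δ ^ 2 := by
      have h1 : δ ^ 2 = Real.exp (-(2 * (c * ((D + 1) * l)))) := by
        rw [hδ, ← Real.exp_nat_mul]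
        congr 1
        push_cast; ring
      rw [h1]
      calc (1 : ℝ) = Real.exp (2 * (c * ((D + 1) * l))) * Real.exp (-(2 * (c * ((D + 1) * l)))) := by
            rw [← Real.exp_add, add_neg_cancel, Real.exp_zero]
        _ ≤ _ := mul_le_mul_of_nonneg_right hSlow (Real.exp_pos _).le
    have hDr : (5 : ℝ) ≤ D := by exact_mod_cast hD
    have hbig : 4 * S ≤ 2 ^ D := by
      have h1 : (4 : ℝ) * S ≤ 2 ^ D := by
        have h2 : (4 : ℝ) * S ≤ 8 * Real.exp (2 * (c * ((D + 1) * l))) := by linarith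
        refine h2.trans ?_
        have h3 : (8 : ℝ) = Real.exp (3 * Real.log 2) := by
          rw [mul_comm, Real.exp_mul, Real.exp_log (by norm_num)]
          norm_num
        have h4 : (2 : ℝ) ^ D = Real.exp (D * Real.log 2) := by
          rw [mul_comm, Real.exp_mul, Real.exp_log (by norm_num), Real.rpow_natCast]
        rw [h3, h4, ← Real.exp_add, Real.exp_le_exp]
        have h5 : 2 * (c * ((D + 1) * l)) = 2 * (D + 1) * (c * l) := by ring
        rw [h5]
        have h6 : 2 * ((D : ℝ) + 1) * (c * l) ≤ 2 * (D + 1) * (Real.log 2 / 8) := by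
          apply mul_le_mul_of_nonneg_left hcl (by positivity)
        nlinarith
      exact_mod_cast h1
    obtain ⟨T, hT, hcov⟩ := cover_raw hb hS0 (Real.exp_pos _) hSδ hbig hc (by linarith)
    refine ⟨T, hT.trans ?_, hcov⟩
    rw [← hlamdef, ← hL]
    -- the count
    have h1 : (S : ℝ) ^ 2 ≤ 4 * Real.exp (4 * c * l) * Real.exp (4 * c * (D * l)) := by
      calc (S : ℝ) ^ 2 ≤ (2 * Real.exp (2 * (c * ((D + 1) * l)))) ^ 2 :=
            pow_le_pow_left₀ (Nat.cast_nonneg _) hSup 2
        _ = 4 * Real.exp (4 * c * l) * Real.exp (4 * c * (D * l)) := by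
            rw [mul_pow, ← Real.exp_nat_mul, mul_assoc, ← Real.exp_add]
            norm_num
            ring
    have h2 : Real.log (2 * S) ≤ Real.log 4 + 2 * c * l + 2 * c * (D * l) := by
      have h3 : (2 : ℝ) * S ≤ 4 * Real.exp (2 * (c * ((D + 1) * l))) := by linarith
      have h4 := Real.log_le_log (by positivity) h3
      rw [Real.log_mul (by norm_num) (Real.exp_pos _).ne', Real.log_exp] at h4
      linarith
    have h3 : Real.exp (L * (Real.log (2 * S) / lam)) ≤
        A₁ * Real.exp ((2 / lam) * c * L * (D * l)) := by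
      rw [hA₁, ← Real.exp_add, Real.exp_le_exp]
      have h4 : Real.log (2 * S) / lam ≤ (Real.log 4 + 2 * c * l + 2 * c * (D * l)) / lam :=
        div_le_div_of_nonneg_right h2 hlam.le
      calc L * (Real.log (2 * S) / lam)
          ≤ L * ((Real.log 4 + 2 * c * l + 2 * c * (D * l)) / lam) :=
            mul_le_mul_of_nonneg_left h4 (by linarith)
        _ = _ := by field_simp
    have h4 : (1 + ((b : ℝ) + 2) * c) ^ D ≤ Real.exp (((b + 2) / l) * c * (D * l)) := by
      have h5 : 1 + ((b : ℝ) + 2) * c ≤ Real.exp ((b + 2) * c) := by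
        have := Real.add_one_le_exp (((b : ℝ) + 2) * c)
        linarith
      calc (1 + ((b : ℝ) + 2) * c) ^ D ≤ (Real.exp ((b + 2) * c)) ^ D :=
            pow_le_pow_left₀ (by positivity) h5 D
        _ = Real.exp (((b + 2) / l) * c * (D * l)) := by
            rw [← Real.exp_nat_mul]
            congr 1
            field_simp
    have hA1A : 4 * Real.exp (4 * c * l) * A₁ ≤ A := by
      rw [hA]
      have : (0 : ℝ) < (b : ℝ) ^ 5 + 1 := by positivity
      linarith
    calc (S : ℝ) ^ 2 * (Real.exp (L * (Real.log (2 * S) / lam)) * (1 + ((b : ℝ) + 2) * c) ^ D)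
        ≤ (4 * Real.exp (4 * c * l) * Real.exp (4 * c * (D * l))) *
          ((A₁ * Real.exp ((2 / lam) * c * L * (D * l))) *
            Real.exp (((b + 2) / l) * c * (D * l))) := by
          apply mul_le_mul h1 _ (by positivity) (by positivity)
          apply mul_le_mul h3 h4 (by positivity) (by positivity)
      _ = (4 * Real.exp (4 * c * l) * A₁) * Real.exp (4 * c * (D * l) +
            (2 / lam) * c * L * (D * l) + ((b + 2) / l) * c * (D * l)) := by
          rw [Real.exp_add, Real.exp_add]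
          ring
      _ ≤ A * Real.exp ((4 + 2 / lam + (b + 2) / l) * c * L * (D * l)) := by
          apply mul_le_mul hA1A _ (Real.exp_pos _).le (by positivity)
          rw [Real.exp_le_exp]
          have h6 : 0 ≤ (4 + (b + 2) / l) * c * (D * l) := by positivity
          nlinarith [mul_le_mul_of_nonneg_left hL1 h6]

end Pool.H2.FC
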