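import Pool.Agent.H2.FC.Cover

/-!
# Digit-restricted multipliers: the Hausdorff dimension of the exceptional sets
-/

set_option autoImplicit false

open Filter Topology Metric MeasureTheory
open scoped ENNReal NNReal

namespace Pool.H2.FC

theorem ediam_cb (x r : ℝ) : ediam (closedBall x r) = ENNReal.ofReal (2 * r) := by
  rw [Real.closedBall_eq_Icc, Real.ediam_Icc]
  congr 1
  ring

/-- Upper bound for the dimension of a limsup set (adapted from a lemma of helper91). -/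
theorem dimH_limsup_le (S : ℕ → Finset ℝ) (r : ℕ → ℝ) (hr : ∀ k, 0 ≤ r k)
    (hr0 : Antitone r) (hr1 : Tendsto r atTop (𝓝 0)) (E : Set ℝ)
    (hE : ∀ m : ℕ, ∀ x ∈ E, ∃ k, ∃ s ∈ S (k + m), |x - s| ≤ r (k + m)) (δ : ℝ≥0) (hδ : 0 < δ)
    (hsum : Summable fun k => ((S k).card : ℝ) * (2 * r k) ^ (δ : ℝ)) : dimH E ≤ δ := by
  have hδ' : (0 : ℝ) < δ := by exact_mod_cast hδ
  have h1 := Measure.hausdorffMeasure_le_liminf_tsum (β := ℕ)
    (ι := fun m => Σ k : ℕ, {x // x ∈ S (k + m)}) (δ : ℝ) E (l := atTop)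
    (fun m => ENNReal.ofReal (2 * r m))
    (by
      have : Tendsto (fun m => ENNReal.ofReal (2 * r m)) atTop (𝓝 (ENNReal.ofReal (2 * 0))) :=
        ENNReal.tendsto_ofReal (hr1.const_mul 2)
      simpa using this)
    (fun m i => closedBall (i.2 : ℝ) (r (i.1 + m)))
    (Filter.Eventually.of_forall fun m i => by
      rw [ediam_cb]
      apply ENNReal.ofReal_le_ofReal
      have := hr0 (show m ≤ i.1 + m by omega)
      linarith)
    (Filter.Eventually.of_forall fun m x hx => by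
      obtain ⟨k, s, hs, hxs⟩ := hE m x hx
      rw [Set.mem_iUnion]
      refine ⟨⟨k, ⟨s, hs⟩⟩, ?_⟩
      rw [mem_closedBall, Real.dist_eq]
      exact hxs)
  set F : ℕ → ℝ≥0∞ := fun k => ENNReal.ofReal (((S k).card : ℝ) * (2 * r k) ^ (δ : ℝ)) with hF
  have h2 : ∀ m, ∑' i : (Σ k : ℕ, {x // x ∈ S (k + m)}),
      (ediam (closedBall (i.2 : ℝ) (r (i.1 + m)))) ^ (δ : ℝ) = ∑' k, F (k + m) := by
    intro m
    rw [ENNReal.tsum_sigma']
    apply tsum_congr
    intro k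
    rw [tsum_fintype]
    simp only [ediam_cb, Finset.sum_const, Finset.card_univ, Fintype.card_coe, nsmul_eq_mul]
    rw [hF]
    simp only
    rw [ENNReal.ofReal_mul (Nat.cast_nonneg _), ENNReal.ofReal_natCast,
      ENNReal.ofReal_rpow_of_nonneg (mul_nonneg (by norm_num) (hr _)) hδ'.le]
  have h3 : ∑' k, F k ≠ ∞ := by
    have h5 : ∀ k, 0 ≤ ((S k).card : ℝ) * (2 * r k) ^ (δ : ℝ) := fun k =>
      mul_nonneg (Nat.cast_nonneg _) (Real.rpow_nonneg (mul_nonneg (by norm_num) (hr k)) _)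
    rw [hF, ← ENNReal.ofReal_tsum_of_nonneg h5 hsum]
    exact ENNReal.ofReal_ne_top
  have h4 := ENNReal.tendsto_sum_nat_add F h3
  have h5 : liminf (fun m => ∑' i : (Σ k : ℕ, {x // x ∈ S (k + m)}),
      (ediam (closedBall (i.2 : ℝ) (r (i.1 + m)))) ^ (δ : ℝ)) atTop = 0 := by
    simp_rw [h2]
    exact h4.liminf_eq
  rw [h5] at h1
  apply dimH_le_of_hausdorffMeasure_ne_top
  rw [le_antisymm h1 zero_le]
  exact ENNReal.zero_ne_top

/-- `‖γ n‖ > N ^ (-c)` for all digit-restricted `n ≤ N`. -/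
def NoSave (b : ℕ) (γ c : ℝ) (N : ℕ) : Prop :=
  ∀ F : Finset ℕ, F.Nonempty → ∑ d ∈ F, b ^ d ≤ N →
    (N : ℝ) ^ (-c) < |γ * (∑ d ∈ F, b ^ d : ℕ) - round (γ * (∑ d ∈ F, b ^ d : ℕ))|

theorem sum_lt {b : ℕ} (hb : 2 ≤ b) (D : ℕ) {F : Finset ℕ} (hF : F ⊆ Finset.range D) :
    ∑ d ∈ F, b ^ d < b ^ D := by
  refine (Finset.sum_le_sum_of_subset hF).trans_lt ?_
  rw [Nat.geomSum_eq hb]
  have h1 : 0 < b ^ D := by positivity
  have h2 : (b ^ D - 1) / (b - 1) ≤ b ^ D - 1 := Nat.div_le_self _ _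
  omega

/-- If there is no saving at `N` then `γ` is exceptional at the scale `b ^ D`, `b ^ D ≤ N`. -/
theorem bad_of_noSave {b : ℕ} (hb : 2 ≤ b) {γ c : ℝ} (hc : 0 < c) {N : ℕ} (hN : N ≠ 0)
    (h : NoSave b γ c N) :
    γ ∈ Bad b (Nat.log b N) (Real.exp (-(c * ((Nat.log b N + 1) * Real.log b)))) := by
  intro F hF hne k
  have hb0 : (0 : ℝ) < b := by positivity
  have h1 : ∑ d ∈ F, b ^ d ≤ N := (sum_lt hb _ hF).le.trans (Nat.pow_log_le_self b hN)
  have h2 := h F hne h1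
  have h3 : Real.exp (-(c * (((Nat.log b N : ℕ) + 1 : ℝ) * Real.log b))) ≤ (N : ℝ) ^ (-c) := by
    have h4 : (N : ℝ) ≤ (b : ℝ) ^ (Nat.log b N + 1) := by
      exact_mod_cast (Nat.lt_pow_succ_log_self (by omega) N).le
    have h5 : (0 : ℝ) < N := by exact_mod_cast Nat.pos_of_ne_zero hN
    have h6 : Real.exp (-(c * (((Nat.log b N : ℕ) + 1 : ℝ) * Real.log b))) =
        ((b : ℝ) ^ (Nat.log b N + 1)) ^ (-c) := by
      rw [Real.rpow_def_of_pos (by positivity), Real.log_pow]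
      congr 1
      push_cast
      ring
    rw [h6]
    exact Real.rpow_le_rpow_of_nonpos h5 h4 (by linarith)
  refine lt_of_le_of_lt h3 (lt_of_lt_of_le h2 ?_)
  have h7 := round_le (γ * (∑ d ∈ F, b ^ d : ℕ)) k
  refine h7.trans (le_of_eq ?_)
  congr 2
  push_cast
  ring

/-- The exceptional set at infinitely many scales. -/
def Ex (b : ℕ) (c : ℝ) : Set ℝ := {γ | ∃ᶠ N : ℕ in atTop, NoSave b γ c N}

theorem noSave_add_int {b : ℕ} {γ c : ℝ} {N : ℕ} (z : ℤ) (h : NoSave b γ c N) :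
    NoSave b (γ + z) c N := by
  intro F hne hF
  have h1 := h F hne hF
  have h2 : (γ + z) * ((∑ d ∈ F, b ^ d : ℕ) : ℝ) =
      γ * ((∑ d ∈ F, b ^ d : ℕ) : ℝ) + ((z * (∑ d ∈ F, b ^ d : ℕ) : ℤ) : ℝ) := by
    push_cast; ring
  rw [h2, round_add_intCast]
  push_cast at h1 ⊢
  convert h1 using 2
  ring

theorem dimH_Ex {b : ℕ} (hb : 2 ≤ b) {c E A : ℝ} (hc : 0 < c) (hE : 0 ≤ E)
    (h : ∀ D : ℕ, ∃ T : Finset ℝ,
      (T.card : ℝ) ≤ A * Real.exp (E * (D * Real.log b)) ∧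
      ∀ θ : ℝ, 0 ≤ θ → θ ≤ 1 → θ ∈ Bad b D (Real.exp (-(c * ((D + 1) * Real.log b)))) →
        ∃ t ∈ T, |θ - t| ≤ 1 / (b : ℝ) ^ D) :
    dimH (Ex b c) ≤ ENNReal.ofReal E := by
  have hb2 : (2 : ℝ) ≤ b := by exact_mod_cast hb
  have hb0 : (0 : ℝ) < b := by linarith
  have hl0 : 0 < Real.log b := Real.log_pos (by linarith)
  choose T hT1 hT2 using h
  -- the part in the unit interval
  have key : ∀ δ : ℝ≥0, E < δ → dimH (Ex b c ∩ Set.Icc 0 1) ≤ δ := by
    intro δ hδ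
    have hδ0 : (0 : ℝ) < δ := lt_of_le_of_lt hE hδ
    apply dimH_limsup_le T (fun D => 1 / (b : ℝ) ^ D) (fun D => by positivity)
    · intro m n hmn
      dsimp only
      apply one_div_le_one_div_of_le (by positivity)
      exact pow_le_pow_right₀ (by linarith) hmn
    · have : Tendsto (fun D : ℕ => ((b : ℝ)⁻¹) ^ D) atTop (𝓝 0) :=
        tendsto_pow_atTop_nhds_zero_of_lt_one (by positivity) (inv_lt_one_of_one_lt₀ (by linarith))
      refine this.congr fun D => ?_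
      rw [inv_pow, one_div]
    · rintro m x ⟨hx, hx0, hx1⟩
      obtain ⟨N, hN1, hN2⟩ := (Filter.frequently_atTop.1 hx) (b ^ m)
      have hN0 : N ≠ 0 := by
        have : 0 < b ^ m := by positivity
        omega
      have hm : m ≤ Nat.log b N := (Nat.le_log_iff_pow_le (by omega) hN0).2 hN1
      obtain ⟨t, ht, hxt⟩ := hT2 (Nat.log b N) x hx0 hx1 (bad_of_noSave hb hc hN0 hN2)
      refine ⟨Nat.log b N - m, t, ?_, ?_⟩
      · rw [Nat.sub_add_cancel hm]; exact ht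
      · rw [Nat.sub_add_cancel hm]; exact hxt
    · exact_mod_cast hδ0
    · -- summability
      have hlt : Real.exp ((E - δ) * Real.log b) < 1 := by
        rw [Real.exp_lt_one_iff]
        nlinarith
      have h1 : Summable (fun D : ℕ => (A * (2 : ℝ) ^ (δ : ℝ)) *
          (Real.exp ((E - δ) * Real.log b)) ^ D) :=
        (summable_geometric_of_lt_one (Real.exp_pos _).le hlt).mul_left _
      refine Summable.of_nonneg_of_le (fun D => by positivity) (fun D => ?_) h1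
      have h2 : (2 * (1 / (b : ℝ) ^ D)) ^ (δ : ℝ) =
          (2 : ℝ) ^ (δ : ℝ) * Real.exp (-(δ * (D * Real.log b))) := by
        rw [Real.mul_rpow (by norm_num) (by positivity)]
        congr 1
        rw [Real.rpow_def_of_pos (by positivity), one_div, Real.log_inv, Real.log_pow]
        congr 1
        ring
      rw [h2]
      calc ((T D).card : ℝ) * ((2 : ℝ) ^ (δ : ℝ) * Real.exp (-(δ * (D * Real.log b))))
          ≤ (A * Real.exp (E * (D * Real.log b))) *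
            ((2 : ℝ) ^ (δ : ℝ) * Real.exp (-(δ * (D * Real.log b)))) :=
            mul_le_mul_of_nonneg_right (hT1 D) (by positivity)
        _ = (A * (2 : ℝ) ^ (δ : ℝ)) * (Real.exp ((E - δ) * Real.log b)) ^ D := by
            rw [← Real.exp_nat_mul]
            have : (D : ℝ) * ((E - δ) * Real.log b) =
              E * (D * Real.log b) + -(δ * (D * Real.log b)) := by ring
            rw [this, Real.exp_add]
            ring
  have key2 : dimH (Ex b c ∩ Set.Icc 0 1) ≤ ENNReal.ofReal E := by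
    apply le_of_forall_gt_imp_ge_of_dense
    intro a ha
    rcases eq_or_ne a ∞ with rfl | hne
    · exact le_top
    · lift a to ℝ≥0 using hne
      apply key
      rw [ENNReal.ofReal_lt_iff_lt_toReal hE ENNReal.coe_ne_top] at ha
      exact ha
  -- translation
  have hsub : Ex b c ⊆ ⋃ z : ℤ, (fun x : ℝ => x + z) '' (Ex b c ∩ Set.Icc 0 1) := by
    intro γ hγ
    rw [Set.mem_iUnion]
    refine ⟨⌊γ⌋, γ + ((-⌊γ⌋ : ℤ) : ℝ), ⟨?_, ?_, ?_⟩, ?_⟩
    · exact hγ.mono fun N hN => noSave_add_int _ hN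
    · push_cast
      have := Int.floor_le γ
      linarith
    · push_cast
      have := Int.lt_floor_add_one γ
      linarith
    · push_cast
      ring
  refine (dimH_mono hsub).trans ?_
  rw [dimH_iUnion]
  apply iSup_le
  intro z
  have hiso : Isometry (fun x : ℝ => x + (z : ℝ)) := by
    intro x y
    simp [edist_dist, Real.dist_eq]
  rw [hiso.dimH_image]
  exact key2

/-- There is no power saving for `γ`. -/
def NoPower (b : ℕ) : Set ℝ :=
  {γ | ¬ ∃ c C : ℝ, 0 < c ∧ ∀ N : ℕ, 1 ≤ N → ∃ F : Finset ℕ, F.Nonempty ∧ ∑ d ∈ F, b ^ d ≤ N ∧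
    |γ * (∑ d ∈ F, b ^ d : ℕ) - round (γ * (∑ d ∈ F, b ^ d : ℕ))| ≤ C * (N : ℝ) ^ (-c)}

theorem noPower_sub {b : ℕ} {c : ℝ} (hc : 0 < c) : NoPower b ⊆ Ex b c := by
  intro γ hγ
  by_contra hcon
  apply hγ
  have h1 : ∀ᶠ N : ℕ in atTop, ¬ NoSave b γ c N := not_frequently.1 hcon
  obtain ⟨N₀, hN₀⟩ := eventually_atTop.1 h1
  refine ⟨c, 1 + (N₀ : ℝ) ^ c, hc, ?_⟩
  intro N hN
  have hNr : (0 : ℝ) < N := by exact_mod_cast hN
  have hNc : 0 < (N : ℝ) ^ (-c) := Real.rpow_pos_of_pos hNr _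
  have hN0c : 0 ≤ (N₀ : ℝ) ^ c := Real.rpow_nonneg (Nat.cast_nonneg _) _
  rcases le_or_gt N₀ N with h | h
  · have h2 := hN₀ N h
    unfold NoSave at h2
    push Not at h2
    obtain ⟨F, hne, hF, hle⟩ := h2
    refine ⟨F, hne, hF, hle.trans ?_⟩
    nlinarith
  · refine ⟨{0}, Finset.singleton_nonempty _, by simpa using hN, ?_⟩
    refine (abs_sub_round _).trans ?_
    have h2 : (1 : ℝ) ≤ (N₀ : ℝ) ^ c * (N : ℝ) ^ (-c) := by
      rw [Real.rpow_neg hNr.le, ← div_eq_mul_inv, one_le_div (Real.rpow_pos_of_pos hNr _)]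
      exact Real.rpow_le_rpow hNr.le (by exact_mod_cast h.le) hc.le
    nlinarith

theorem dimH_noPower {b : ℕ} {c₀ C : ℝ} (hc₀ : 0 < c₀)
    (h : ∀ c : ℝ, 0 < c → c ≤ c₀ → dimH (Ex b c) ≤ ENNReal.ofReal (C * c * Real.log (1 / c))) :
    dimH (NoPower b) = 0 := by
  apply le_antisymm _ zero_le
  have h1 : Tendsto (fun c : ℝ => ENNReal.ofReal (C * c * Real.log (1 / c))) (𝓝[>] 0) (𝓝 0) := by
    have h2 : Tendsto (fun c : ℝ => C * c * Real.log (1 / c)) (𝓝[>] 0) (𝓝 0) := by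
      have h3 := ((tendsto_log_mul_rpow_nhdsGT_zero zero_lt_one).const_mul (-C))
      rw [mul_zero] at h3
      refine h3.congr fun c => ?_
      rw [one_div, Real.log_inv, Real.rpow_one]
      ring
    have h4 := ENNReal.tendsto_ofReal h2
    rwa [ENNReal.ofReal_zero] at h4
  apply ge_of_tendsto h1
  have h5 : ∀ᶠ c : ℝ in 𝓝[>] 0, c ∈ Set.Ioc 0 c₀ := Ioc_mem_nhdsGT hc₀
  filter_upwards [h5] with c hc
  exact (dimH_mono (noPower_sub hc.1)).trans (h c hc.1 hc.2)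

end Pool.H2.FC
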