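import Pool.Agent.H2.FC.Cover

/-!
# Digit-restricted multipliers: exact multiples of `q`
-/

set_option autoImplicit false

namespace Pool.H2.FC

open Finset Filter

theorem Ev_add (b m w : ℕ) (x : ℝ) :
    (Ev b (m + w) x).card = (Ev b m x).card + (Ev b w ((b : ℝ) ^ m * x)).card := by
  induction w with
  | zero => simp [Ev]
  | succ w ih =>
    have h1 : ∀ (D : ℕ) (x : ℝ), (Ev b (D + 1) x).card = (Ev b D x).card +
        (if 1 / (2 * (b : ℝ)) ≤ |(b : ℝ) ^ D * x - round ((b : ℝ) ^ D * x)| then 1 else 0) := by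
      intro D x
      unfold Ev
      rw [range_add_one, filter_insert]
      split_ifs with h
      · rw [card_insert_of_notMem]
        simp
      · rfl
    rw [← add_assoc, h1, h1, ih, add_assoc]
    have h2 : (b : ℝ) ^ (m + w) * x = (b : ℝ) ^ w * ((b : ℝ) ^ m * x) := by
      rw [pow_add]; ring
    rw [h2]

theorem Ev_mono (b : ℕ) {m D : ℕ} (h : m ≤ D) (x : ℝ) : (Ev b m x).card ≤ (Ev b D x).card := by
  apply card_le_card
  unfold Ev
  apply filter_subset_filter
  exact range_subset_range.2 h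

theorem Ev_windows (b w : ℕ) (x : ℝ) (n : ℕ) :
    (Ev b (n * w) x).card = ∑ j ∈ range n, (Ev b w ((b : ℝ) ^ (j * w) * x)).card := by
  induction n with
  | zero => simp [Ev]
  | succ n ih => rw [add_mul, one_mul, Ev_add, ih, sum_range_succ]

theorem Ev_int (b w : ℕ) (x : ℝ) (z : ℤ) : Ev b w (x + z) = Ev b w x := by
  unfold Ev
  apply filter_congr
  intro j _
  have h1 : (b : ℝ) ^ j * (x + z) = (b : ℝ) ^ j * x + (((b : ℤ) ^ j * z : ℤ) : ℝ) := by
    push_cast; ring
  rw [h1, round_add_intCast]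
  have h2 : (b : ℝ) ^ j * x + (((b : ℤ) ^ j * z : ℤ) : ℝ) -
      ((round ((b : ℝ) ^ j * x) + (b : ℤ) ^ j * z : ℤ) : ℝ) =
      (b : ℝ) ^ j * x - round ((b : ℝ) ^ j * x) := by push_cast; ring
  rw [h2]

/-- The sparse moduli. -/
def SpM (b : ℕ) (η : ℝ) : Set ℕ :=
  {q | 2 ≤ q ∧ ∃ a : ℕ, a < q ∧ Nat.Coprime a q ∧
    ((Ev b (2 * Nat.clog b q + 2) ((a : ℝ) / q)).card : ℝ) ≤ η * (2 * Nat.clog b q + 2 : ℕ)}

/-- Few sparse moduli below `b ^ r`. -/
theorem count_r {b : ℕ} (hb : 2 ≤ b) (r h : ℕ) {y : ℝ} (hy : 0 < y) (hy1 : y ≤ 1)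
    (Q : Finset ℕ) (hQ : ∀ q ∈ Q, 2 ≤ q ∧ q ≤ b ^ r ∧ ∃ a : ℕ, a < q ∧ Nat.Coprime a q ∧
      (Ev b (2 * r + 2) ((a : ℝ) / q)).card ≤ h) :
    (Q.card : ℝ) * y ^ h ≤ 2 * (1 + (b + 2) * y) ^ (2 * r + 2) := by
  classical
  have hb0 : (0 : ℝ) < b := by positivity
  have hQ' : ∀ q : Q, ∃ a : ℕ, a < (q : ℕ) ∧ Nat.Coprime a q ∧
      (Ev b (2 * r + 2) ((a : ℝ) / (q : ℕ))).card ≤ h := fun q => (hQ q q.2).2.2
  choose a ha1 ha2 ha3 using hQ'
  set w := 2 * r + 2 with hw
  set U : Finset ℤ := cod b 0 w h ∪ cod b 1 w h with hU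
  have hcard : Q.card ≤ U.card := by
    rw [← card_attach]
    apply card_le_card_of_injOn (fun q : Q => round ((b : ℝ) ^ w * ((a q : ℝ) / (q : ℕ))))
    · intro q _
      have hq2 := (hQ q q.2).1
      have hqr : (0 : ℝ) < ((q : ℕ) : ℝ) := by exact_mod_cast (by omega : 0 < (q : ℕ))
      have h1 := mem_cod hb ((a q : ℝ) / (q : ℕ)) w h (ha3 q)
      have h2 : round ((a q : ℝ) / (q : ℕ)) = 0 ∨ round ((a q : ℝ) / (q : ℕ)) = 1 := by
        have h3 : (0 : ℝ) ≤ (a q : ℝ) / (q : ℕ) := by positivity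
        have h4 : (a q : ℝ) / (q : ℕ) < 1 := by
          rw [div_lt_one hqr]; exact_mod_cast ha1 q
        have h5 : 0 ≤ round ((a q : ℝ) / (q : ℕ)) := by
          rw [round_eq]; apply Int.floor_nonneg.2; linarith
        have h6 : round ((a q : ℝ) / (q : ℕ)) < 2 := by
          rw [round_eq, Int.floor_lt]; push_cast; linarith
        omega
      rw [Finset.mem_coe, hU, mem_union]
      rcases h2 with h2 | h2
      · left; rw [h2] at h1; exact h1
      · right; rw [h2] at h1; exact h1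
    · intro q _ q' _ heq
      dsimp only at heq
      have hq2 := hQ q q.2
      have hq2' := hQ q' q'.2
      have hqr : (0 : ℝ) < ((q : ℕ) : ℝ) := by exact_mod_cast (by omega : 0 < (q : ℕ))
      have hqr' : (0 : ℝ) < ((q' : ℕ) : ℝ) := by exact_mod_cast (by omega : 0 < (q' : ℕ))
      have hbw : (0 : ℝ) < (b : ℝ) ^ w := by positivity
      have h1 := abs_sub_round ((b : ℝ) ^ w * ((a q : ℝ) / (q : ℕ)))
      have h2 := abs_sub_round ((b : ℝ) ^ w * ((a q' : ℝ) / (q' : ℕ)))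
      rw [heq] at h1
      have h3 : |(b : ℝ) ^ w * ((a q : ℝ) / (q : ℕ)) - (b : ℝ) ^ w * ((a q' : ℝ) / (q' : ℕ))| ≤ 1 := by
        set z : ℝ := ((round ((b : ℝ) ^ w * ((a q' : ℝ) / (q' : ℕ))) : ℤ) : ℝ)
        calc _ = |((b : ℝ) ^ w * ((a q : ℝ) / (q : ℕ)) - z) -
              ((b : ℝ) ^ w * ((a q' : ℝ) / (q' : ℕ)) - z)| := by congr 1; ring
          _ ≤ _ := (abs_sub _ _).trans (by linarith)
      have h4 : (b : ℝ) ^ w * ((a q : ℝ) / (q : ℕ)) - (b : ℝ) ^ w * ((a q' : ℝ) / (q' : ℕ)) =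
          (b : ℝ) ^ w / (((q : ℕ) : ℝ) * ((q' : ℕ) : ℝ)) *
            (((a q : ℤ) * ((q' : ℕ) : ℤ) - (a q' : ℤ) * ((q : ℕ) : ℤ) : ℤ) : ℝ) := by
        push_cast
        field_simp
      rw [h4, abs_mul, abs_of_pos (by positivity)] at h3
      have h5 : (a q : ℤ) * ((q' : ℕ) : ℤ) - (a q' : ℤ) * ((q : ℕ) : ℤ) = 0 := by
        by_contra hne
        have h6 : (1 : ℝ) ≤
            |(((a q : ℤ) * ((q' : ℕ) : ℤ) - (a q' : ℤ) * ((q : ℕ) : ℤ) : ℤ) : ℝ)| := by
          exact_mod_cast Int.one_le_abs hne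
        have h7 : (1 : ℝ) < (b : ℝ) ^ w / (((q : ℕ) : ℝ) * ((q' : ℕ) : ℝ)) := by
          rw [one_lt_div (by positivity)]
          have h8 : ((q : ℕ) : ℝ) ≤ (b : ℝ) ^ r := by exact_mod_cast hq2.2.1
          have h9 : ((q' : ℕ) : ℝ) ≤ (b : ℝ) ^ r := by exact_mod_cast hq2'.2.1
          have hb2 : (2 : ℝ) ≤ b := by exact_mod_cast hb
          calc ((q : ℕ) : ℝ) * ((q' : ℕ) : ℝ) ≤ (b : ℝ) ^ r * (b : ℝ) ^ r :=
                mul_le_mul h8 h9 hqr'.le (by positivity)
            _ = (b : ℝ) ^ (2 * r) := by rw [← pow_add]; congr 1; ring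
            _ < (b : ℝ) ^ w := pow_lt_pow_right₀ (by linarith) (by omega)
        nlinarith
      have h6 : a q * (q' : ℕ) = a q' * (q : ℕ) := by
        have : (a q : ℤ) * ((q' : ℕ) : ℤ) = (a q' : ℤ) * ((q : ℕ) : ℤ) := by linarith
        exact_mod_cast this
      have h7 : (q : ℕ) ∣ (q' : ℕ) := by
        apply (ha2 q).symm.dvd_of_dvd_mul_left
        rw [h6]; exact dvd_mul_left _ _
      have h8 : (q' : ℕ) ∣ (q : ℕ) := by
        apply (ha2 q').symm.dvd_of_dvd_mul_left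
        rw [← h6]; exact dvd_mul_left _ _
      exact Subtype.ext (Nat.dvd_antisymm h7 h8)
  have h1 : (Q.card : ℝ) ≤ (cod b 0 w h).card + (cod b 1 w h).card := by
    have : Q.card ≤ (cod b 0 w h).card + (cod b 1 w h).card := hcard.trans (card_union_le _ _)
    exact_mod_cast this
  have h2 := cod_card b 0 hy hy1 w h
  have h3 := cod_card b 1 hy hy1 w h
  have h4 : (Q.card : ℝ) * y ^ h ≤ ((cod b 0 w h).card + (cod b 1 w h).card) * y ^ h :=
    mul_le_mul_of_nonneg_right h1 (by positivity)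
  linarith

/-- If `q` has no digit-restricted multiple then it has a sparse divisor. -/
theorem sparse_divisor {b : ℕ} (hb : 2 ≤ b) {η : ℝ} (hη : 0 < η) {M : ℕ} (hM : b ≤ M)
    (hMη : Real.log b / (-Real.log (Real.cos (Real.pi / (2 * b)))) ≤ η * M) {q : ℕ}
    (hq : 2 ≤ q) (hcop : Nat.Coprime q b)
    (hno : ∀ F ⊆ range (M * (2 * Nat.clog b q + 2)), F.Nonempty → ¬ q ∣ ∑ j ∈ F, b ^ j) :
    ∃ p ∈ SpM b η, p ∣ q := by
  obtain ⟨hr0, hr1⟩ := cos_bounds hb
  have hlam : 0 < -Real.log (Real.cos (Real.pi / (2 * b))) := by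
    have := Real.log_neg hr0 hr1
    linarith
  set lam : ℝ := -Real.log (Real.cos (Real.pi / (2 * b))) with hlamdef
  have hb2 : (2 : ℝ) ≤ b := by exact_mod_cast hb
  have hb0 : (0 : ℝ) < b := by linarith
  set r := Nat.clog b q with hr
  set D := M * (2 * r + 2) with hD
  have hqr : q ≤ b ^ r := Nat.le_pow_clog (by omega) q
  have hq0 : (0 : ℝ) < q := by exact_mod_cast (by omega : 0 < q)
  have hbig : 2 * q < 2 ^ D := by
    have h1 : b < 2 ^ b := Nat.lt_two_pow_self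
    have h2 : b ^ (2 * r + 2) < (2 ^ b) ^ (2 * r + 2) := Nat.pow_lt_pow_left h1 (by omega)
    have h3 : (2 ^ b) ^ (2 * r + 2) ≤ 2 ^ D := by
      rw [← pow_mul]
      apply Nat.pow_le_pow_right (by norm_num)
      rw [hD]
      exact Nat.mul_le_mul_right _ hM
    have h4 : 2 * q ≤ b ^ (2 * r + 2) := by
      calc 2 * q ≤ b * b ^ r := Nat.mul_le_mul hb hqr
        _ = b ^ (r + 1) := by ring
        _ ≤ b ^ (2 * r + 2) := Nat.pow_le_pow_right (by omega) (by omega)
    omega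
  obtain ⟨t, ht0, htq, ht⟩ := spec_rat (by omega : 0 < q) hbig hno
  have hev := events_le hb (by positivity) ht
  rw [← hlamdef] at hev
  -- lowest terms
  set g := Nat.gcd t q with hg
  have hg0 : 0 < g := Nat.gcd_pos_of_pos_left _ ht0
  obtain ⟨t', ht'⟩ := Nat.gcd_dvd_left t q
  obtain ⟨p, hp⟩ := Nat.gcd_dvd_right t q
  rw [← hg] at ht' hp
  have hcopp : Nat.Coprime t' p := by
    have h1 := Nat.coprime_div_gcd_div_gcd (m := t) (n := q) hg0
    rw [← hg] at h1
    rwa [Nat.div_eq_of_eq_mul_right hg0 ht', Nat.div_eq_of_eq_mul_right hg0 hp] at h1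
  have hp0 : 0 < p := by
    rcases Nat.eq_zero_or_pos p with h | h
    · rw [h, mul_zero] at hp; omega
    · exact h
  have hp2 : 2 ≤ p := by
    by_contra hcon
    have h1 : p = 1 := by omega
    rw [h1, mul_one] at hp
    have : q ∣ t := by rw [hp]; exact Nat.gcd_dvd_left t q
    have := Nat.le_of_dvd ht0 this
    omega
  have hpq : p ∣ q := ⟨g, by rw [hp]; ring⟩
  have hcopb : Nat.Coprime p b := Nat.Coprime.coprime_dvd_left hpq hcop
  have hpr : (0 : ℝ) < p := by exact_mod_cast hp0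
  have hx : (t : ℝ) / q = (t' : ℝ) / p := by
    have h1 : (t : ℝ) = g * t' := by exact_mod_cast ht'
    have h2 : (q : ℝ) = g * p := by exact_mod_cast hp
    have h3 : (0 : ℝ) < g := by exact_mod_cast hg0
    rw [h1, h2]
    field_simp
  set r' := Nat.clog b p with hr'
  have hrr : r' ≤ r := Nat.clog_mono_right b (Nat.le_of_dvd (by omega) hpq)
  set w := 2 * r' + 2 with hw
  -- some window
  have hwin : ∃ j : ℕ, ((Ev b w ((b : ℝ) ^ (j * w) * ((t : ℝ) / q))).card : ℝ) ≤ η * w := by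
    by_contra hcon
    push Not at hcon
    set n := D / w with hn
    have hnw : n * w ≤ D := Nat.div_mul_le_self D w
    have hnw2 : D < n * w + w := by
      have h1 := Nat.lt_div_mul_add (a := D) (b := w) (by omega)
      rw [← hn] at h1
      exact h1
    have h1 := Ev_mono b hnw ((t : ℝ) / q)
    rw [Ev_windows] at h1
    have h2 : (n : ℝ) * (η * w) ≤
        ∑ j ∈ range n, ((Ev b w ((b : ℝ) ^ (j * w) * ((t : ℝ) / q))).card : ℝ) := by
      have := Finset.card_nsmul_le_sum (range n)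
        (fun j => ((Ev b w ((b : ℝ) ^ (j * w) * ((t : ℝ) / q))).card : ℝ)) (η * w)
        (fun j _ => (hcon j).le)
      rwa [card_range, nsmul_eq_mul] at this
    have h3 : ∑ j ∈ range n, ((Ev b w ((b : ℝ) ^ (j * w) * ((t : ℝ) / q))).card : ℝ) ≤
        ((Ev b D ((t : ℝ) / q)).card : ℝ) := by exact_mod_cast h1
    -- strictness
    have hn1 : 1 ≤ n := by
      rw [hn, Nat.one_le_div_iff (by omega), hD]
      calc w ≤ 2 * r + 2 := by omega
        _ ≤ M * (2 * r + 2) := Nat.le_mul_of_pos_left _ (by omega)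
    have h2' : (n : ℝ) * (η * w) <
        ∑ j ∈ range n, ((Ev b w ((b : ℝ) ^ (j * w) * ((t : ℝ) / q))).card : ℝ) := by
      have hne : (range n).Nonempty := ⟨0, mem_range.2 hn1⟩
      have := Finset.sum_lt_sum_of_nonempty hne (fun j (_ : j ∈ range n) => hcon j)
      rw [sum_const, card_range, nsmul_eq_mul] at this
      exact this
    have h4 : (D : ℝ) / 2 ≤ n * w := by
      have h5 : D ≤ 2 * (n * w) := by
        have h6 : 2 * w ≤ D := by
          rw [hD]
          calc 2 * w ≤ M * w := Nat.mul_le_mul_right _ (by omega)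
            _ ≤ M * (2 * r + 2) := Nat.mul_le_mul_left _ (by omega)
        omega
      have : (D : ℝ) ≤ 2 * (n * w) := by exact_mod_cast h5
      linarith
    have h5 : Real.log (2 * q) ≤ (r + 1) * Real.log b := by
      have h6 : (2 : ℝ) * q ≤ (b : ℝ) ^ (r + 1) := by
        have : 2 * q ≤ b ^ (r + 1) := by
          calc 2 * q ≤ b * b ^ r := Nat.mul_le_mul hb hqr
            _ = b ^ (r + 1) := by ring
        exact_mod_cast this
      have h7 := Real.log_le_log (by positivity) h6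
      rw [Real.log_pow] at h7
      push_cast at h7
      exact h7
    have h6 : Real.log (2 * q) / lam ≤ η * (D / 2) := by
      have h7 : Real.log (2 * q) / lam ≤ (r + 1) * (Real.log b / lam) := by
        rw [← mul_div_assoc]
        exact div_le_div_of_nonneg_right h5 hlam.le
      have h8 : (r + 1) * (Real.log b / lam) ≤ (r + 1) * (η * M) :=
        mul_le_mul_of_nonneg_left hMη (by positivity)
      have h9 : (D : ℝ) = M * (2 * r + 2) := by rw [hD]; push_cast; ring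
      rw [h9]
      nlinarith
    have h7 : η * (D / 2) ≤ n * (η * w) := by
      have := mul_le_mul_of_nonneg_left h4 hη.le
      linarith
    linarith
  obtain ⟨j, hj⟩ := hwin
  refine ⟨p, ⟨hp2, (b ^ (j * w) * t') % p, Nat.mod_lt _ hp0, ?_, ?_⟩, hpq⟩
  · have h1 : Nat.Coprime (b ^ (j * w) * t') p :=
      Nat.Coprime.mul_left (Nat.Coprime.pow_left _ hcopb.symm) hcopp
    rw [Nat.coprime_iff_gcd_eq_one] at h1 ⊢
    rw [← Nat.gcd_rec, Nat.gcd_comm]
    exact h1
  · have h1 : (b : ℝ) ^ (j * w) * ((t : ℝ) / q) =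
        (((b ^ (j * w) * t') % p : ℕ) : ℝ) / p + ((((b ^ (j * w) * t') / p : ℕ) : ℤ) : ℝ) := by
      rw [hx]
      have h2 : ((b ^ (j * w) * t' : ℕ) : ℝ) =
          (p : ℝ) * (((b ^ (j * w) * t') / p : ℕ) : ℝ) + (((b ^ (j * w) * t') % p : ℕ) : ℝ) := by
        exact_mod_cast (Nat.div_add_mod (b ^ (j * w) * t') p).symm
      generalize (b ^ (j * w) * t') / p = K at h2 ⊢
      generalize (b ^ (j * w) * t') % p = R at h2 ⊢
      push_cast at h2 ⊢
      rw [← mul_div_assoc, h2]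
      field_simp
      ring
    rw [h1, Ev_int] at hj
    exact hj

end Pool.H2.FC
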