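import Pool.Agent.H2.FC.Rat

/-!
# Digit-restricted multipliers: exact multiples of `q`, main statements
-/

set_option autoImplicit false

namespace Pool.H2.FC

open Finset Filter

theorem clog_bound {b : ℕ} (hb : 2 ≤ b) {X : ℕ} (hX : 1 ≤ X) : b ^ Nat.clog b X ≤ b * X := by
  rcases Nat.lt_or_ge 1 X with h | h
  · have h1 := Nat.pow_pred_clog_lt_self (by omega : 1 < b) h
    have h2 : 0 < Nat.clog b X := Nat.clog_pos (by omega) h
    obtain ⟨m, hm⟩ : ∃ m, Nat.clog b X = m + 1 := ⟨Nat.clog b X - 1, by omega⟩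
    rw [hm] at h1 ⊢
    rw [Nat.pred_succ] at h1
    calc b ^ (m + 1) = b * b ^ m := by ring
      _ ≤ b * X := Nat.mul_le_mul_left _ h1.le
  · have h1 : X = 1 := by omega
    subst h1
    simp
    omega

theorem count_main {b : ℕ} (hb : 2 ≤ b) {ε : ℝ} (hε : 0 < ε) : ∃ η A : ℝ, 0 < η ∧ 0 < A ∧
    ∀ X : ℕ, 1 ≤ X → ((SpM b η ∩ Set.Icc 1 X).ncard : ℝ) ≤ A * (X : ℝ) ^ ε := by
  classical
  have hb2 : (2 : ℝ) ≤ b := by exact_mod_cast hb
  have hb0 : (0 : ℝ) < b := by linarith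
  set l : ℝ := Real.log b with hl
  have hl0 : 0 < l := Real.log_pos (by linarith)
  set y : ℝ := min 1 (ε * l / (8 * (b + 2))) with hy
  have hy0 : 0 < y := lt_min one_pos (by positivity)
  have hy1 : y ≤ 1 := min_le_left _ _
  have hy2 : (b + 2) * y ≤ ε * l / 8 := by
    have h1 : y ≤ ε * l / (8 * (b + 2)) := min_le_right _ _
    calc (b + 2) * y ≤ (b + 2) * (ε * l / (8 * (b + 2))) :=
          mul_le_mul_of_nonneg_left h1 (by positivity)
      _ = ε * l / 8 := by field_simp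
  set L : ℝ := Real.log (1 / y) with hL
  have hL0 : 0 ≤ L := Real.log_nonneg (by rw [le_div_iff₀ hy0]; linarith)
  set η : ℝ := ε * l / (8 * (L + 1)) with hη
  have hη0 : 0 < η := by positivity
  have hηL : η * L ≤ ε * l / 8 := by
    rw [hη, div_mul_eq_mul_div, div_le_div_iff₀ (by positivity) (by norm_num)]
    nlinarith [mul_pos hε hl0]
  refine ⟨η, 4 / (ε * l) * (b : ℝ) ^ (2 * ε), hη0, by positivity, ?_⟩
  intro X hX
  set R := Nat.clog b X with hR
  set Q : ℕ → Finset ℕ := fun r => (Icc 2 (b ^ r)).filter (fun q => ∃ a : ℕ, a < q ∧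
    Nat.Coprime a q ∧ (Ev b (2 * r + 2) ((a : ℝ) / q)).card ≤ ⌊η * (2 * r + 2 : ℕ)⌋₊) with hQ
  have hsub : (SpM b η ∩ Set.Icc 1 X) ⊆ (((range (R + 1)).biUnion Q : Finset ℕ) : Set ℕ) := by
    rintro q ⟨⟨hq2, a, ha1, ha2, ha3⟩, _, hqX⟩
    rw [Finset.mem_coe, mem_biUnion]
    refine ⟨Nat.clog b q, ?_, ?_⟩
    · rw [mem_range]
      have := Nat.clog_mono_right b hqX
      omega
    · rw [hQ]
      dsimp only
      rw [mem_filter, mem_Icc]
      exact ⟨⟨hq2, Nat.le_pow_clog (by omega) q⟩, a, ha1, ha2, Nat.le_floor ha3⟩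
  have h1 : ((SpM b η ∩ Set.Icc 1 X).ncard : ℝ) ≤ ∑ r ∈ range (R + 1), ((Q r).card : ℝ) := by
    have h2 : (SpM b η ∩ Set.Icc 1 X).ncard ≤ ∑ r ∈ range (R + 1), (Q r).card := by
      have h3 := Set.ncard_le_ncard hsub (Finset.finite_toSet _)
      rw [Set.ncard_coe_finset] at h3
      exact h3.trans card_biUnion_le
    exact_mod_cast h2
  have h2 : ∀ r ∈ range (R + 1), ((Q r).card : ℝ) ≤ 2 * Real.exp ((R + 1) * (ε * l / 2)) := by
    intro r hr
    have hrR : (r : ℝ) ≤ R := by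
      have : r ≤ R := by rw [mem_range] at hr; omega
      exact_mod_cast this
    set h := ⌊η * (2 * r + 2 : ℕ)⌋₊ with hh
    have h3 := count_r hb r h hy0 hy1 (Q r) (by
      intro q hq
      rw [hQ] at hq
      dsimp only at hq
      rw [mem_filter, mem_Icc] at hq
      exact ⟨hq.1.1, hq.1.2, hq.2⟩)
    have h4 : Real.exp (-(L * (η * (2 * r + 2)))) ≤ y ^ h := by
      have h5 : y ^ h = Real.exp (h * Real.log y) := by
        rw [mul_comm, Real.exp_mul, Real.exp_log hy0, Real.rpow_natCast]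
      rw [h5, Real.exp_le_exp]
      have h6 : (h : ℝ) ≤ η * (2 * r + 2) := by
        have := Nat.floor_le (show 0 ≤ η * (2 * r + 2 : ℕ) by positivity)
        rw [← hh] at this
        push_cast at this
        exact this
      have h7 : Real.log y = -L := by rw [hL, one_div, Real.log_inv, neg_neg]
      rw [h7]
      nlinarith
    have h8 : (1 + ((b : ℝ) + 2) * y) ^ (2 * r + 2) ≤
        Real.exp ((2 * r + 2) * (ε * l / 8)) := by
      have h9 : 1 + ((b : ℝ) + 2) * y ≤ Real.exp (ε * l / 8) := by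
        have := Real.add_one_le_exp (ε * l / 8)
        linarith
      calc _ ≤ (Real.exp (ε * l / 8)) ^ (2 * r + 2) := pow_le_pow_left₀ (by positivity) h9 _
        _ = _ := by
          rw [← Real.exp_nat_mul]
          push_cast
          ring_nf
    have h10 : ((Q r).card : ℝ) * Real.exp (-(L * (η * (2 * r + 2)))) ≤
        2 * Real.exp ((2 * r + 2) * (ε * l / 8)) := by
      calc _ ≤ ((Q r).card : ℝ) * y ^ h := mul_le_mul_of_nonneg_left h4 (Nat.cast_nonneg _)
        _ ≤ _ := h3.trans (mul_le_mul_of_nonneg_left h8 (by norm_num))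
    have h11 : ((Q r).card : ℝ) ≤ 2 * Real.exp ((2 * r + 2) * (ε * l / 8)) *
        Real.exp (L * (η * (2 * r + 2))) := by
      calc ((Q r).card : ℝ) = ((Q r).card : ℝ) * Real.exp (-(L * (η * (2 * r + 2)))) *
            Real.exp (L * (η * (2 * r + 2))) := by
            rw [mul_assoc, ← Real.exp_add, neg_add_cancel, Real.exp_zero, mul_one]
        _ ≤ _ := mul_le_mul_of_nonneg_right h10 (Real.exp_pos _).le
    refine h11.trans ?_
    rw [mul_assoc, ← Real.exp_add]
    apply mul_le_mul_of_nonneg_left _ (by norm_num)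
    rw [Real.exp_le_exp]
    have h12 : L * (η * (2 * r + 2)) ≤ (2 * r + 2) * (ε * l / 8) := by
      calc L * (η * (2 * r + 2)) = (2 * r + 2) * (η * L) := by ring
        _ ≤ _ := mul_le_mul_of_nonneg_left hηL (by positivity)
    have h13 : 0 < ε * l := by positivity
    nlinarith
  have h3 := h1.trans (sum_le_sum h2)
  rw [sum_const, card_range, nsmul_eq_mul] at h3
  push_cast at h3
  refine h3.trans ?_
  -- absorb the factor
  have h4 : ((R : ℝ) + 1) ≤ 2 / (ε * l) * Real.exp ((R + 1) * (ε * l / 2)) := by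
    have h5 := Real.add_one_le_exp (((R : ℝ) + 1) * (ε * l / 2))
    have h6 : 0 < 2 / (ε * l) := by positivity
    calc ((R : ℝ) + 1) = 2 / (ε * l) * (((R : ℝ) + 1) * (ε * l / 2)) := by field_simp
      _ ≤ _ := mul_le_mul_of_nonneg_left (by linarith) h6.le
  have h5 : Real.exp ((R + 1) * (ε * l)) ≤ (b : ℝ) ^ (2 * ε) * (X : ℝ) ^ ε := by
    have hXr : (0 : ℝ) < X := by exact_mod_cast hX
    have h6 : (b : ℝ) ^ (R + 1) ≤ (b : ℝ) ^ 2 * X := by
      have h7 : b ^ (R + 1) ≤ b ^ 2 * X := by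
        have := clog_bound hb hX
        rw [← hR] at this
        calc b ^ (R + 1) = b * b ^ R := by ring
          _ ≤ b * (b * X) := Nat.mul_le_mul_left _ this
          _ = b ^ 2 * X := by ring
      exact_mod_cast h7
    have h7 : Real.exp ((R + 1) * (ε * l)) = ((b : ℝ) ^ (R + 1)) ^ ε := by
      rw [Real.rpow_def_of_pos (by positivity), Real.log_pow, ← hl]
      push_cast
      ring_nf
    have h8 : (b : ℝ) ^ (2 * ε) * (X : ℝ) ^ ε = ((b : ℝ) ^ 2 * X) ^ ε := by
      rw [Real.mul_rpow (by positivity) hXr.le, ← Real.rpow_natCast, ← Real.rpow_mul hb0.le]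
      norm_num
    rw [h7, h8]
    exact Real.rpow_le_rpow (by positivity) h6 hε.le
  calc ((R : ℝ) + 1) * (2 * Real.exp ((R + 1) * (ε * l / 2)))
      ≤ (2 / (ε * l) * Real.exp ((R + 1) * (ε * l / 2))) *
          (2 * Real.exp ((R + 1) * (ε * l / 2))) :=
        mul_le_mul_of_nonneg_right h4 (by positivity)
    _ = 4 / (ε * l) * Real.exp ((R + 1) * (ε * l)) := by
        have : ((R : ℝ) + 1) * (ε * l) = (R + 1) * (ε * l / 2) + (R + 1) * (ε * l / 2) := by ring
        rw [this, Real.exp_add]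
        ring
    _ ≤ 4 / (ε * l) * ((b : ℝ) ^ (2 * ε) * (X : ℝ) ^ ε) :=
        mul_le_mul_of_nonneg_left h5 (by positivity)
    _ = _ := by ring

/-- every `s > 0` divides `b ^ v * s'` with `s' ∣ s` coprime to `b` and `v ≤ log₂ s`
(from the file `NearPower` of helper94). -/
theorem split_coprime (b : ℕ) : ∀ s : ℕ, 0 < s →
    ∃ v s' : ℕ, v ≤ Nat.log 2 s ∧ s' ∣ s ∧ Nat.Coprime s' b ∧ s ∣ b ^ v * s' := by
  intro s
  induction s using Nat.strong_induction_on with
  | _ s ih =>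
    intro hs
    by_cases hc : Nat.Coprime s b
    · exact ⟨0, s, Nat.zero_le _, dvd_rfl, hc, by simp⟩
    · set g := Nat.gcd s b with hg
      have hg1 : g ≠ 1 := hc
      have hg0 : 0 < g := Nat.gcd_pos_of_pos_left _ hs
      have hg2 : 2 ≤ g := by omega
      obtain ⟨s1, hs1⟩ := Nat.gcd_dvd_left s b
      rw [← hg] at hs1
      have hs1pos : 0 < s1 := by
        rcases Nat.eq_zero_or_pos s1 with h | h
        · rw [h, mul_zero] at hs1; omega
        · exact h
      have hlt : s1 < s := by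
        rw [hs1]; nlinarith
      obtain ⟨v, s', hv, hd, hcop, hdvd⟩ := ih s1 hlt hs1pos
      refine ⟨v + 1, s', ?_, ?_, hcop, ?_⟩
      · have h1 : s1 * 2 ≤ s := by rw [hs1]; nlinarith
        have h2 : Nat.log 2 (s1 * 2) ≤ Nat.log 2 s := Nat.log_mono_right h1
        rw [Nat.log_mul_base (by norm_num) hs1pos.ne'] at h2
        omega
      · rw [hs1]; exact Dvd.dvd.mul_left hd g
      · have hgb : g ∣ b := Nat.gcd_dvd_right s b
        have : g * s1 ∣ b * (b ^ v * s') := mul_dvd_mul hgb hdvd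
        rw [← hs1] at this
        have e : b * (b ^ v * s') = b ^ (v + 1) * s' := by ring
        rw [e] at this
        exact this

/-- The theorem on exact multiples. -/
theorem rat_main {b : ℕ} (hb : 2 ≤ b) {ε : ℝ} (hε : 0 < ε) : ∃ (A : ℝ) (B : Set ℕ),
    (∀ p ∈ B, 2 ≤ p) ∧
    (∀ X : ℕ, 1 ≤ X → ((B ∩ Set.Icc 1 X).ncard : ℝ) ≤ A * (X : ℝ) ^ ε) ∧
    ∀ q : ℕ, 1 ≤ q → (∀ p ∈ B, ¬ p ∣ q) → ∃ F : Finset ℕ, F.Nonempty ∧ q ∣ ∑ d ∈ F, b ^ d ∧
      ((∑ d ∈ F, b ^ d : ℕ) : ℝ) ≤ A * (q : ℝ) ^ A := by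
  classical
  obtain ⟨η, A₀, hη, hA₀, hcount⟩ := count_main hb hε
  obtain ⟨M₁, hM₁⟩ := exists_nat_ge (Real.log b / (-Real.log (Real.cos (Real.pi / (2 * b)))) / η)
  set M := max b M₁ with hM
  have hMb : b ≤ M := le_max_left _ _
  have hMη : Real.log b / (-Real.log (Real.cos (Real.pi / (2 * b)))) ≤ η * M := by
    rw [div_le_iff₀ hη] at hM₁
    have h1 : (M₁ : ℝ) ≤ M := by exact_mod_cast le_max_right _ _
    nlinarith
  set K : ℕ := b ^ (4 * M) + (2 * M + b) with hK
  refine ⟨A₀ + K, SpM b η, fun p hp => hp.1, ?_, ?_⟩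
  · intro X hX
    refine (hcount X hX).trans ?_
    apply mul_le_mul_of_nonneg_right _ (by positivity)
    have : (0 : ℝ) ≤ K := Nat.cast_nonneg _
    linarith
  intro q hq hno
  -- the integer bound suffices
  suffices h : ∃ F : Finset ℕ, F.Nonempty ∧ q ∣ ∑ d ∈ F, b ^ d ∧
      ∑ d ∈ F, b ^ d ≤ b ^ (4 * M) * q ^ (2 * M + b) by
    obtain ⟨F, h1, h2, h3⟩ := h
    refine ⟨F, h1, h2, ?_⟩
    have hqr : (1 : ℝ) ≤ q := by exact_mod_cast hq
    have h4 : ((∑ d ∈ F, b ^ d : ℕ) : ℝ) ≤ (b : ℝ) ^ (4 * M) * (q : ℝ) ^ (2 * M + b) := by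
      exact_mod_cast h3
    have h5 : (q : ℝ) ^ (2 * M + b) ≤ (q : ℝ) ^ (A₀ + K) := by
      rw [← Real.rpow_natCast]
      apply Real.rpow_le_rpow_of_exponent_le hqr
      have : ((2 * M + b : ℕ) : ℝ) ≤ K := by
        rw [hK]; exact_mod_cast Nat.le_add_left _ _
      linarith
    have h6 : (b : ℝ) ^ (4 * M) ≤ A₀ + K := by
      have : ((b ^ (4 * M) : ℕ) : ℝ) ≤ K := by
        rw [hK]; exact_mod_cast Nat.le_add_right _ _
      push_cast at this
      linarith
    refine h4.trans ?_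
    apply mul_le_mul h6 h5 (by positivity)
    have : (0 : ℝ) ≤ K := Nat.cast_nonneg _
    linarith
  obtain ⟨v, s, hv, hsq, hscop, hqs⟩ := split_coprime b q (by omega)
  have hs0 : 0 < s := by
    rcases Nat.eq_zero_or_pos s with h | h
    · rw [h] at hsq
      have := Nat.eq_zero_of_zero_dvd hsq
      omega
    · exact h
  have hsle : s ≤ q := Nat.le_of_dvd (by omega) hsq
  have hbv : b ^ v ≤ q ^ b := by
    have h1 : b ≤ 2 ^ b := Nat.lt_two_pow_self.le
    calc b ^ v ≤ b ^ (Nat.log 2 q) := Nat.pow_le_pow_right (by omega) hv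
      _ ≤ (2 ^ b) ^ (Nat.log 2 q) := Nat.pow_le_pow_left h1 _
      _ = (2 ^ (Nat.log 2 q)) ^ b := by rw [← pow_mul, ← pow_mul, mul_comm]
      _ ≤ q ^ b := Nat.pow_le_pow_left (Nat.pow_log_le_self 2 (by omega)) _
  by_cases hs1 : s = 1
  · refine ⟨{v}, singleton_nonempty _, ?_, ?_⟩
    · rw [sum_singleton]
      rw [hs1, mul_one] at hqs
      exact hqs
    · rw [sum_singleton]
      refine hbv.trans ?_
      calc q ^ b ≤ q ^ (2 * M + b) := Nat.pow_le_pow_right (by omega) (by omega)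
        _ ≤ b ^ (4 * M) * q ^ (2 * M + b) := Nat.le_mul_of_pos_left _ (by positivity)
  · have hs2 : 2 ≤ s := by omega
    have hex : ∃ F ⊆ range (M * (2 * Nat.clog b s + 2)), F.Nonempty ∧ s ∣ ∑ j ∈ F, b ^ j := by
      by_contra hcon
      push Not at hcon
      obtain ⟨p, hp, hps⟩ := sparse_divisor hb hη hMb hMη hs2 hscop hcon
      exact hno p hp (hps.trans hsq)
    obtain ⟨F, hF, hne, hdvd⟩ := hex
    refine ⟨F.map (addRightEmbedding v), hne.map, ?_, ?_⟩
    · rw [sum_map]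
      have h1 : ∑ x ∈ F, b ^ (addRightEmbedding v x) = b ^ v * ∑ x ∈ F, b ^ x := by
        rw [mul_sum]
        apply sum_congr rfl
        intro x _
        rw [addRightEmbedding_apply, pow_add, mul_comm]
      rw [h1]
      exact hqs.trans (Nat.mul_dvd_mul_left _ hdvd)
    · rw [sum_map]
      have h1 : ∑ x ∈ F, b ^ (addRightEmbedding v x) = b ^ v * ∑ x ∈ F, b ^ x := by
        rw [mul_sum]
        apply sum_congr rfl
        intro x _
        rw [addRightEmbedding_apply, pow_add, mul_comm]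
      rw [h1]
      have h2 : ∑ x ∈ F, b ^ x ≤ b ^ (M * (2 * Nat.clog b s + 2)) := by
        refine (sum_le_sum_of_subset hF).trans ?_
        rw [Nat.geomSum_eq hb]
        have h3 : 0 < b ^ (M * (2 * Nat.clog b s + 2)) := by positivity
        exact (Nat.div_le_self _ _).trans (Nat.sub_le _ _)
      have h3 : b ^ (M * (2 * Nat.clog b s + 2)) ≤ b ^ (4 * M) * q ^ (2 * M) := by
        have h4 := clog_bound hb hs0
        calc b ^ (M * (2 * Nat.clog b s + 2)) = (b ^ Nat.clog b s) ^ (2 * M) * b ^ (2 * M) := by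
              rw [← pow_mul, ← pow_add]; congr 1; ring
          _ ≤ (b * q) ^ (2 * M) * b ^ (2 * M) := by
              apply Nat.mul_le_mul_right
              apply Nat.pow_le_pow_left
              exact h4.trans (Nat.mul_le_mul_left _ hsle)
          _ = b ^ (4 * M) * q ^ (2 * M) := by ring
      calc b ^ v * ∑ x ∈ F, b ^ x ≤ q ^ b * (b ^ (4 * M) * q ^ (2 * M)) :=
            Nat.mul_le_mul hbv (h2.trans h3)
        _ = b ^ (4 * M) * q ^ (2 * M + b) := by ring

end Pool.H2.FC
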