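import Pool.Agent.H2.FC.Base

/-!
# Digit-restricted multipliers: a large product of cosines
-/

set_option autoImplicit false

namespace Pool.H2.FC

open Finset Filter

/-- If no digit-restricted multiplier with `D` digits brings `θ` close to an integer then some
product of cosines is large. -/
theorem spec_real {b S D : ℕ} {θ δ : ℝ} (hS : 0 < S) (hδ : 0 < δ) (hSδ : 1 ≤ (S : ℝ) * δ ^ 2)
    (hbig : 4 * S ≤ 2 ^ D)
    (hno : ∀ F ⊆ range D, F.Nonempty → ∀ k : ℤ, δ < |(∑ j ∈ F, (b : ℝ) ^ j) * θ - k|) :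
    ∃ s : ℕ, 0 < s ∧ s < S ∧
      1 / (2 * (S : ℝ)) ≤ ∏ j ∈ range D, G ((b : ℝ) ^ j * ((s : ℝ) * θ)) := by
  by_contra hcon
  push Not at hcon
  set N : Finset ℕ → ℝ := fun F => ∑ j ∈ F, (b : ℝ) ^ j with hN
  set K : ℝ := ∑ F ∈ (range D).powerset, ‖∑ s ∈ range S, ee (s * (N F * θ))‖ ^ 2 with hK
  have hSpos : (0 : ℝ) < S := by exact_mod_cast hS
  -- upper bound
  have hup : K ≤ S ^ 2 + 2 ^ D * (1 / (2 * δ)) ^ 2 := by
    rw [hK, ← Finset.add_sum_erase _ _ (Finset.empty_mem_powerset (range D))]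
    apply add_le_add
    · simp [hN, ee_zero]
    · calc ∑ F ∈ (range D).powerset.erase ∅, ‖∑ s ∈ range S, ee (s * (N F * θ))‖ ^ 2
          ≤ ∑ F ∈ (range D).powerset.erase ∅, (1 / (2 * δ)) ^ 2 := by
            apply sum_le_sum
            intro F hF
            rw [Finset.mem_erase, Finset.mem_powerset] at hF
            apply pow_le_pow_left₀ (norm_nonneg _)
            apply norm_geom_le hδ
            intro k
            exact (hno F hF.2 (Finset.nonempty_iff_ne_empty.2 hF.1) k).le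
        _ = (((range D).powerset.erase ∅).card : ℝ) * (1 / (2 * δ)) ^ 2 := by
            rw [sum_const, nsmul_eq_mul]
        _ ≤ 2 ^ D * (1 / (2 * δ)) ^ 2 := by
            apply mul_le_mul_of_nonneg_right _ (by positivity)
            have : ((range D).powerset.erase ∅).card ≤ 2 ^ D := by
              refine (Finset.card_erase_le).trans ?_
              rw [card_powerset, card_range]
            exact_mod_cast this
  -- lower bound
  have hKc : (K : ℂ) = ∑ s ∈ range S, ∑ s' ∈ range S,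
      ∏ j ∈ range D, (1 + ee ((b : ℝ) ^ j * (((s : ℝ) - s') * θ))) := by
    rw [hK]
    push_cast
    have h1 : ∀ F ∈ (range D).powerset, (‖∑ s ∈ range S, ee (s * (N F * θ))‖ : ℂ) ^ 2
        = ∑ s ∈ range S, ∑ s' ∈ range S, ee (N F * (((s : ℝ) - s') * θ)) := by
      intro F _
      have h2 := Complex.mul_conj (∑ s ∈ range S, ee (s * (N F * θ)))
      rw [Complex.normSq_eq_norm_sq] at h2
      push_cast at h2
      rw [← h2, map_sum, sum_mul_sum]
      apply sum_congr rfl
      intro s _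
      apply sum_congr rfl
      intro s' _
      rw [conj_ee, ← ee_add]
      congr 1; ring
    rw [sum_congr rfl h1, sum_comm]
    apply sum_congr rfl
    intro s _
    rw [sum_comm]
    apply sum_congr rfl
    intro s' _
    rw [prod_one_add_ee]
  have hlow : (S : ℝ) * 2 ^ D / 2 < K := by
    have hdiag : ∀ s ∈ range S, ‖(∑ s' ∈ range S,
        ∏ j ∈ range D, (1 + ee ((b : ℝ) ^ j * (((s : ℝ) - s') * θ)))) - 2 ^ D‖ < 2 ^ D / 2 := by
      intro s hs
      rw [← Finset.add_sum_erase _ _ hs]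
      have h0 : ∏ j ∈ range D, (1 + ee ((b : ℝ) ^ j * (((s : ℝ) - s) * θ))) = (2 : ℂ) ^ D := by
        simp [ee_zero]
        norm_num
      rw [h0, add_sub_cancel_left]
      have h2 : ∀ s' ∈ (range S).erase s,
          ‖∏ j ∈ range D, (1 + ee ((b : ℝ) ^ j * (((s : ℝ) - s') * θ)))‖ ≤
            2 ^ D * (1 / (2 * (S : ℝ))) := by
        intro s' hs'
        rw [Finset.mem_erase] at hs'
        rw [norm_prod_one_add]
        apply mul_le_mul_of_nonneg_left _ (by positivity)
        rw [mem_range] at hs hs'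
        -- symmetry
        have hG : ∀ x : ℝ, G (-x) = G x := by
          intro x; unfold G; rw [neg_mul, Real.cos_neg]
        rcases lt_or_gt_of_ne hs'.1 with h | h
        · have := (hcon (s - s') (by omega) (by omega)).le
          rw [Nat.cast_sub h.le] at this
          exact this
        · have := (hcon (s' - s) (by omega) (by omega)).le
          rw [Nat.cast_sub h.le] at this
          refine le_trans (le_of_eq ?_) this
          apply prod_congr rfl
          intro j _
          rw [← hG]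
          congr 1; ring
      calc ‖∑ s' ∈ (range S).erase s, ∏ j ∈ range D, (1 + ee ((b : ℝ) ^ j * (((s : ℝ) - s') * θ)))‖
          ≤ ∑ s' ∈ (range S).erase s, 2 ^ D * (1 / (2 * (S : ℝ))) :=
            (norm_sum_le _ _).trans (sum_le_sum h2)
        _ = ((S : ℝ) - 1) * (2 ^ D * (1 / (2 * (S : ℝ)))) := by
            rw [sum_const, card_erase_of_mem hs, card_range, nsmul_eq_mul, Nat.cast_sub hS,
              Nat.cast_one]
        _ < S * (2 ^ D * (1 / (2 * (S : ℝ)))) := by
            apply mul_lt_mul_of_pos_right (by linarith) (by positivity)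
        _ = 2 ^ D / 2 := by field_simp
    have hne : (range S).Nonempty := ⟨0, mem_range.2 hS⟩
    have h3 : ‖(K : ℂ) - S * 2 ^ D‖ < S * (2 ^ D / 2) := by
      rw [hKc]
      have : (S : ℂ) * 2 ^ D = ∑ s ∈ range S, (2 : ℂ) ^ D := by
        rw [sum_const, card_range, nsmul_eq_mul]
      rw [this, ← sum_sub_distrib]
      refine (norm_sum_le _ _).trans_lt ((sum_lt_sum_of_nonempty hne hdiag).trans_eq ?_)
      rw [sum_const, card_range, nsmul_eq_mul]
    have h4 : ‖(K : ℂ) - S * 2 ^ D‖ = |K - S * 2 ^ D| := by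
      rw [← Real.norm_eq_abs, ← Complex.norm_real]
      congr 1
      push_cast; ring
    rw [h4, abs_lt] at h3
    linarith [h3.1]
  have h5 : (4 : ℝ) * S ≤ 2 ^ D := by exact_mod_cast hbig
  have h6 : (2 : ℝ) ^ D * (1 / (2 * δ)) ^ 2 ≤ 2 ^ D * (S / 4) := by
    apply mul_le_mul_of_nonneg_left _ (by positivity)
    rw [div_pow, one_pow, div_le_iff₀ (by positivity)]
    nlinarith
  nlinarith

/-- If `q` has no digit-restricted multiple with `D` digits then some product of cosines is
large. -/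
theorem spec_rat {b q D : ℕ} (hq : 0 < q) (hbig : 2 * q < 2 ^ D)
    (hno : ∀ F ⊆ range D, F.Nonempty → ¬ q ∣ ∑ j ∈ F, b ^ j) :
    ∃ t : ℕ, 0 < t ∧ t < q ∧
      1 / (2 * (q : ℝ)) ≤ ∏ j ∈ range D, G ((b : ℝ) ^ j * ((t : ℝ) / q)) := by
  by_contra hcon
  push Not at hcon
  have hq' : (0 : ℝ) < q := by exact_mod_cast hq
  set Z : ℂ := ∑ t ∈ range q, ∏ j ∈ range D, (1 + ee ((b : ℝ) ^ j * ((t : ℝ) / q))) with hZ
  have hZ1 : Z = q := by
    have : Z = ∑ F ∈ (range D).powerset, ∑ t ∈ range q,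
        ee ((∑ j ∈ F, (b : ℝ) ^ j) * ((t : ℝ) / q)) := by
      rw [hZ, sum_comm]
      apply sum_congr rfl
      intro t _
      exact prod_one_add_ee b D _
    rw [this, ← Finset.add_sum_erase _ _ (Finset.empty_mem_powerset (range D))]
    have h0 : ∑ F ∈ (range D).powerset.erase ∅, ∑ t ∈ range q,
        ee ((∑ j ∈ F, (b : ℝ) ^ j) * ((t : ℝ) / q)) = 0 := by
      apply sum_eq_zero
      intro F hF
      rw [Finset.mem_erase, Finset.mem_powerset] at hF
      have h1 := geom_zero hq (hno F hF.2 (Finset.nonempty_iff_ne_empty.2 hF.1))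
      push_cast at h1
      exact h1
    rw [h0, add_zero]
    simp [ee_zero]
  have hlow : (2 : ℝ) ^ D / 2 ≤ ‖Z‖ := by
    have hmem : (0 : ℕ) ∈ range q := mem_range.2 hq
    rw [hZ, ← Finset.add_sum_erase _ _ hmem]
    have h0 : ∏ j ∈ range D, (1 + ee ((b : ℝ) ^ j * (((0 : ℕ) : ℝ) / q))) = ((2 ^ D : ℝ) : ℂ) := by
      simp [ee_zero]
      norm_num
    rw [h0]
    have h1 : ‖∑ t ∈ (range q).erase 0, ∏ j ∈ range D, (1 + ee ((b : ℝ) ^ j * ((t : ℝ) / q)))‖
        ≤ 2 ^ D / 2 := by
      have h2 : ∀ t ∈ (range q).erase 0,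
          ‖∏ j ∈ range D, (1 + ee ((b : ℝ) ^ j * ((t : ℝ) / q)))‖
          ≤ 2 ^ D * (1 / (2 * (q : ℝ))) := by
        intro t ht
        rw [mem_erase, mem_range] at ht
        rw [norm_prod_one_add]
        exact mul_le_mul_of_nonneg_left (hcon t (by omega) ht.2).le (by positivity)
      calc ‖∑ t ∈ (range q).erase 0, ∏ j ∈ range D, (1 + ee ((b : ℝ) ^ j * ((t : ℝ) / q)))‖
          ≤ ∑ t ∈ (range q).erase 0, 2 ^ D * (1 / (2 * (q : ℝ))) :=
            (norm_sum_le _ _).trans (sum_le_sum h2)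
        _ = ((q : ℝ) - 1) * (2 ^ D * (1 / (2 * (q : ℝ)))) := by
            rw [sum_const, card_erase_of_mem hmem, card_range, nsmul_eq_mul, Nat.cast_sub hq,
              Nat.cast_one]
        _ ≤ q * (2 ^ D * (1 / (2 * (q : ℝ)))) := by
            apply mul_le_mul_of_nonneg_right (by linarith) (by positivity)
        _ = 2 ^ D / 2 := by field_simp
    have h2 : ‖((2 ^ D : ℝ) : ℂ)‖ = 2 ^ D := by
      rw [Complex.norm_real]
      exact abs_of_pos (by positivity)
    have h3 := norm_sub_le_norm_add ((2 ^ D : ℝ) : ℂ)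
      (∑ t ∈ (range q).erase 0, ∏ j ∈ range D, (1 + ee ((b : ℝ) ^ j * ((t : ℝ) / q))))
    rw [h2] at h3
    linarith
  rw [hZ1] at hlow
  have h1 : ‖(q : ℂ)‖ = q := by simp
  rw [h1] at hlow
  have h2 : (2 : ℝ) * q < 2 ^ D := by exact_mod_cast hbig
  linarith

end Pool.H2.FC
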